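import Pool.Agent.Q183.SKM.Uni

/-!
# The Skolem Problem for random matrices
-/

set_option autoImplicit false

namespace Pool.Agent.Q183.SKM

open Filter Matrix Pool.Agent.H684R3.Smo Pool.Agent.H884R2.Sko

/-- A certificate for the instance `(M, x, y)`: a prime `p ≤ (log H) ^ A` such that the integers
`x^T M^n y` have period `(p - 1) / 2` modulo `p` and none of them is divisible by `p`. -/
def CertM (A : ℝ) (H : ℕ) {d : ℕ} (M : Matrix (Fin d) (Fin d) ℤ) (x y : Fin d → ℤ) : Prop :=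
  ∃ p : ℕ, p.Prime ∧ (p : ℝ) ≤ Real.log H ^ A ∧
    (∀ n : ℕ, (p : ℤ) ∣ x ⬝ᵥ (M ^ (n + (p - 1) / 2) *ᵥ y) - x ⬝ᵥ (M ^ n *ᵥ y)) ∧
    ∀ n : ℕ, ¬ (p : ℤ) ∣ x ⬝ᵥ (M ^ n *ᵥ y)

theorem cast_form {d : ℕ} (p : ℕ) (M : Matrix (Fin d) (Fin d) ℤ) (x y : Fin d → ℤ) (n : ℕ) :
    ((x ⬝ᵥ (M ^ n *ᵥ y) : ℤ) : ZMod p) = (fun i => (x i : ZMod p)) ⬝ᵥ
      ((M.map (fun z : ℤ => (z : ZMod p))) ^ n *ᵥ (fun i => (y i : ZMod p))) := by
  have h1 : (Int.castRingHom (ZMod p)) (x ⬝ᵥ (M ^ n *ᵥ y)) = (Int.castRingHom (ZMod p) ∘ x) ⬝ᵥ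
      (Int.castRingHom (ZMod p) ∘ (M ^ n *ᵥ y)) := RingHom.map_dotProduct _ _ _
  have h2 : (Int.castRingHom (ZMod p) ∘ (M ^ n *ᵥ y)) =
      ((M ^ n).map (Int.castRingHom (ZMod p))) *ᵥ (Int.castRingHom (ZMod p) ∘ y) := by
    funext i
    exact RingHom.map_mulVec _ _ _ _
  have h3 : (M ^ n).map (Int.castRingHom (ZMod p)) =
      (M.map (Int.castRingHom (ZMod p))) ^ n := by
    have := map_pow (Int.castRingHom (ZMod p)).mapMatrix M n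
    simpa [RingHom.mapMatrix_apply] using this
  rw [h2, h3] at h1
  exact h1

theorem card_bx {ι : Type} [Fintype ι] [DecidableEq ι] (b : ι → ℤ) (H : ℕ) :
    (bx b H).card = (2 * H + 1) ^ Fintype.card ι := by
  unfold bx
  rw [Fintype.card_piFinset]
  have : ∀ i : ι, (Finset.Icc (b i - H) (b i + H)).card = 2 * H + 1 := by
    intro i
    rw [Int.card_Icc]
    omega
  simp only [this, Finset.prod_const, Finset.card_univ]

theorem mem_bx {ι : Type} [Fintype ι] [DecidableEq ι] {b : ι → ℤ} {H : ℕ} {v : ι → ℤ} :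
    v ∈ bx b H ↔ ∀ i, |v i - b i| ≤ H := by
  unfold bx
  rw [Fintype.mem_piFinset]
  refine forall_congr' fun i => ?_
  rw [Finset.mem_Icc, abs_le]
  constructor <;> rintro ⟨h1, h2⟩ <;> constructor <;> linarith

open scoped Classical in
/-- **The main theorem.** -/
theorem main (e : ℕ) (A : ℝ) (hA : 1 < A) : ∃ δ : ℝ, 0 < δ ∧ ∃ H₀ : ℕ, ∀ H : ℕ, H₀ ≤ H →
    ∀ b : Fin (e + 1) × Fin (e + 1) → ℤ,
      (Nat.card {v : Fin (e + 1) × Fin (e + 1) → ℤ // v ∈ bx b H ∧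
        ¬ ∀ x y : Fin (e + 1) → ℤ, (∀ i, |(x i : ℝ)| ≤ (H : ℝ) ^ δ) →
          (∀ i, |(y i : ℝ)| ≤ (H : ℝ) ^ δ) → x ⬝ᵥ y ≠ 0 → CertM A H (mt v) x y} : ℝ) ≤
        (2 * (H : ℝ) + 1) ^ (Fintype.card (Fin (e + 1) × Fin (e + 1))) * (H : ℝ) ^ (-δ) := by
  obtain ⟨κ, hκ, hloc⟩ := loc e
  obtain ⟨θ, hθ, hAθ, H₁, hprimes⟩ := primes_not A hA (4 * (e + 1))
  obtain ⟨δ₀, hδ₀, H₂, hsieve⟩ := t5v (Fin (e + 1) × Fin (e + 1)) κ θ A hκ hθ (by linarith) hAθ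
  obtain ⟨δ, hδ⟩ : ∃ δ : ℝ, δ = min (δ₀ / (8 * ((e : ℝ) + 1))) 1 := ⟨_, rfl⟩
  have he1 : (1 : ℝ) ≤ (e : ℝ) + 1 := by
    have : (0 : ℝ) ≤ e := Nat.cast_nonneg e
    linarith
  have hδ0 : 0 < δ := by rw [hδ]; positivity
  have hδ1 : δ ≤ 1 := by rw [hδ]; exact min_le_right _ _
  have hδ2 : 8 * ((e : ℝ) + 1) * δ ≤ δ₀ := by
    have h1 : δ ≤ δ₀ / (8 * ((e : ℝ) + 1)) := by rw [hδ]; exact min_le_left _ _
    rw [le_div_iff₀ (by positivity)] at h1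
    linarith
  have hδ3 : 8 * δ ≤ δ₀ := by
    have h1 : 8 * δ ≤ 8 * ((e : ℝ) + 1) * δ := by nlinarith
    linarith
  have hev : ∀ᶠ H : ℕ in atTop, ((3 : ℝ) ^ (2 * (e + 1))) ≤ (H : ℝ) ^ (δ₀ / 2) := by
    have : Tendsto (fun y : ℕ => (y : ℝ) ^ (δ₀ / 2)) atTop atTop :=
      (tendsto_rpow_atTop (by linarith)).comp tendsto_natCast_atTop_atTop
    exact this.eventually_ge_atTop _
  obtain ⟨H₃, hH₃⟩ := eventually_atTop.1 hev
  refine ⟨δ, hδ0, H₁ + H₂ + H₃ + e + 2, fun H hH b => ?_⟩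
  have hH1 : 1 ≤ H := by omega
  have hHr : (1 : ℝ) ≤ H := by exact_mod_cast hH1
  have hH0 : (0 : ℝ) < H := by linarith
  obtain ⟨D, hD⟩ : ∃ D : ℕ, D = Fintype.card (Fin (e + 1) × Fin (e + 1)) := ⟨_, rfl⟩
  rw [← hD]
  obtain ⟨X, hX⟩ : ∃ X : ℕ, X = ⌊(H : ℝ) ^ δ⌋₊ := ⟨_, rfl⟩
  have hX1 : (X : ℝ) ≤ (H : ℝ) ^ δ := by
    rw [hX]
    exact Nat.floor_le (by positivity)
  have hHδ1 : 1 ≤ (H : ℝ) ^ δ := Real.one_le_rpow hHr hδ0.le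
  have hXH : X ≤ H := by
    have h1 : (H : ℝ) ^ δ ≤ H := by
      have := Real.rpow_le_rpow_of_exponent_le hHr hδ1
      rwa [Real.rpow_one] at this
    have h2 : (X : ℝ) ≤ H := hX1.trans h1
    exact_mod_cast h2
  -- the exceptional set of one instance
  obtain ⟨E, hE⟩ : ∃ E : (Fin (e + 1) → ℤ) × (Fin (e + 1) → ℤ) →
      Finset (Fin (e + 1) × Fin (e + 1) → ℤ), E = fun z => (bx b H).filter (fun v =>
        ∀ p : ℕ, (p.Prime ∧ 4 * (e + 1) ≤ p ∧ ¬ p ∣ (z.1 ⬝ᵥ z.2).natAbs) →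
          (p : ℝ) ≤ Real.log H ^ A → (fun i => (v i : ZMod p)) ∉
            {v : Fin (e + 1) × Fin (e + 1) → ZMod p |
              GoodM (fun i => (z.1 i : ZMod p)) (fun i => (z.2 i : ZMod p)) v}) := ⟨_, rfl⟩
  have hEc : ∀ z ∈ (bx (0 : Fin (e + 1) → ℤ) X ×ˢ bx (0 : Fin (e + 1) → ℤ) X).filter
      (fun z => z.1 ⬝ᵥ z.2 ≠ 0), ((E z).card : ℝ) ≤ (2 * (H : ℝ) + 1) ^ D * (H : ℝ) ^ (-δ₀) := by
    intro z hz
    rw [Finset.mem_filter, Finset.mem_product, mem_bx, mem_bx] at hz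
    obtain ⟨⟨hz1, hz2⟩, hz3⟩ := hz
    have hs0 : (z.1 ⬝ᵥ z.2).natAbs ≠ 0 := Int.natAbs_ne_zero.2 hz3
    have hsH : (z.1 ⬝ᵥ z.2).natAbs ≤ H ^ 3 := by
      have h1 : |z.1 ⬝ᵥ z.2| ≤ ∑ _i : Fin (e + 1), (X : ℤ) * X := by
        rw [dotProduct]
        refine (Finset.abs_sum_le_sum_abs _ _).trans (Finset.sum_le_sum fun i _ => ?_)
        rw [abs_mul]
        have g1 := hz1 i
        have g2 := hz2 i
        rw [Pi.zero_apply, sub_zero] at g1 g2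
        exact mul_le_mul g1 g2 (abs_nonneg _) (by positivity)
      rw [Finset.sum_const, Finset.card_univ, Fintype.card_fin, nsmul_eq_mul] at h1
      have h2 : ((z.1 ⬝ᵥ z.2).natAbs : ℤ) ≤ ((e + 1 : ℕ) : ℤ) * (X * X) := by
        rw [Int.natCast_natAbs]
        exact h1
      have h3 : (z.1 ⬝ᵥ z.2).natAbs ≤ (e + 1) * (X * X) := by exact_mod_cast h2
      refine h3.trans ?_
      calc (e + 1) * (X * X) ≤ H * (H * H) :=
            Nat.mul_le_mul (by omega) (Nat.mul_le_mul hXH hXH)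
        _ = H ^ 3 := by ring
    have key := hsieve H (by omega)
      (fun p => p.Prime ∧ 4 * (e + 1) ≤ p ∧ ¬ p ∣ (z.1 ⬝ᵥ z.2).natAbs)
      (fun p => {v : Fin (e + 1) × Fin (e + 1) → ZMod p |
        GoodM (fun i => (z.1 i : ZMod p)) (fun i => (z.2 i : ZMod p)) v}) ?_ ?_ b
    · have h1 : Nat.card {v : Fin (e + 1) × Fin (e + 1) → ℤ // v ∈ bx b H ∧ ∀ p,
          (p.Prime ∧ 4 * (e + 1) ≤ p ∧ ¬ p ∣ (z.1 ⬝ᵥ z.2).natAbs) → (p : ℝ) ≤ Real.log H ^ A →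
          (fun i => (v i : ZMod p)) ∉ {v : Fin (e + 1) × Fin (e + 1) → ZMod p |
            GoodM (fun i => (z.1 i : ZMod p)) (fun i => (z.2 i : ZMod p)) v}} = (E z).card := by
        apply Nat.subtype_card
        intro v
        rw [hE, Finset.mem_filter]
      rw [h1] at key
      rw [hD]
      exact key
    · rintro p ⟨hp, hp4, hps⟩
      refine ⟨hp, ?_⟩
      apply hloc p hp hp4
      intro h0
      apply hps
      have h1 := cast_form p (1 : Matrix (Fin (e + 1)) (Fin (e + 1)) ℤ) z.1 z.2 0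
      rw [pow_zero, pow_zero, Matrix.one_mulVec, Matrix.one_mulVec, h0,
        ZMod.intCast_zmod_eq_zero_iff_dvd] at h1
      exact Int.natCast_dvd.1 h1
    · exact hprimes H (by omega) _ hs0 hsH
  -- the union
  have hsub : Nat.card {v : Fin (e + 1) × Fin (e + 1) → ℤ // v ∈ bx b H ∧
        ¬ ∀ x y : Fin (e + 1) → ℤ, (∀ i, |(x i : ℝ)| ≤ (H : ℝ) ^ δ) →
          (∀ i, |(y i : ℝ)| ≤ (H : ℝ) ^ δ) → x ⬝ᵥ y ≠ 0 → CertM A H (mt v) x y} ≤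
      (((bx (0 : Fin (e + 1) → ℤ) X ×ˢ bx (0 : Fin (e + 1) → ℤ) X).filter
      (fun z => z.1 ⬝ᵥ z.2 ≠ 0)).biUnion E).card := by
    have h1 : Nat.card {v : Fin (e + 1) × Fin (e + 1) → ℤ // v ∈ bx b H ∧
        ¬ ∀ x y : Fin (e + 1) → ℤ, (∀ i, |(x i : ℝ)| ≤ (H : ℝ) ^ δ) →
          (∀ i, |(y i : ℝ)| ≤ (H : ℝ) ^ δ) → x ⬝ᵥ y ≠ 0 → CertM A H (mt v) x y} =
        ((bx b H).filter (fun v => ¬ ∀ x y : Fin (e + 1) → ℤ, (∀ i, |(x i : ℝ)| ≤ (H : ℝ) ^ δ) →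
          (∀ i, |(y i : ℝ)| ≤ (H : ℝ) ^ δ) → x ⬝ᵥ y ≠ 0 → CertM A H (mt v) x y)).card := by
      apply Nat.subtype_card
      intro v
      rw [Finset.mem_filter]
    rw [h1]
    refine Finset.card_le_card fun v hv => ?_
    rw [Finset.mem_filter] at hv
    obtain ⟨hv1, hv2⟩ := hv
    push Not at hv2
    obtain ⟨x, y, hx, hy, hxy, hno⟩ := hv2
    rw [Finset.mem_biUnion]
    have hfl : ∀ z : ℤ, |(z : ℝ)| ≤ (H : ℝ) ^ δ → |z| ≤ X := by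
      intro z hz
      have h2 : ((z.natAbs : ℕ) : ℝ) ≤ (H : ℝ) ^ δ := by
        rw [Nat.cast_natAbs]
        push_cast
        exact hz
      have h3 : z.natAbs ≤ X := by
        rw [hX]
        exact Nat.le_floor h2
      rw [← Int.natCast_natAbs]
      exact_mod_cast h3
    refine ⟨(x, y), ?_, ?_⟩
    · rw [Finset.mem_filter, Finset.mem_product, mem_bx, mem_bx]
      refine ⟨⟨fun i => ?_, fun i => ?_⟩, hxy⟩
      · simpa using hfl _ (hx i)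
      · simpa using hfl _ (hy i)
    · rw [hE, Finset.mem_filter]
      refine ⟨hv1, fun p hp hpA hgood => hno ?_⟩
      have hmap : ((mt v).map (fun z : ℤ => (z : ZMod p))) = mt (fun i => (v i : ZMod p)) := by
        ext i j
        rfl
      have hg : GoodM (fun i => (x i : ZMod p)) (fun i => (y i : ZMod p))
          (fun i => (v i : ZMod p)) := hgood
      refine ⟨p, hp.1, hpA, fun n => ?_, fun n hd => ?_⟩
      · have h2 := hg.1 n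
        rw [← hmap, ← cast_form, ← cast_form] at h2
        rw [← ZMod.intCast_zmod_eq_zero_iff_dvd, Int.cast_sub, h2, sub_self]
      · apply hg.2 n
        rw [← hmap, ← cast_form]
        exact (ZMod.intCast_zmod_eq_zero_iff_dvd _ _).2 hd
  have h2 : ((((bx (0 : Fin (e + 1) → ℤ) X ×ˢ bx (0 : Fin (e + 1) → ℤ) X).filter
      (fun z => z.1 ⬝ᵥ z.2 ≠ 0)).biUnion E).card : ℝ) ≤
      (2 * (X : ℝ) + 1) ^ (2 * (e + 1)) * ((2 * (H : ℝ) + 1) ^ D * (H : ℝ) ^ (-δ₀)) := by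
    have g1 : ((((bx (0 : Fin (e + 1) → ℤ) X ×ˢ bx (0 : Fin (e + 1) → ℤ) X).filter
      (fun z => z.1 ⬝ᵥ z.2 ≠ 0)).biUnion E).card : ℝ) ≤
      ∑ z ∈ (bx (0 : Fin (e + 1) → ℤ) X ×ˢ bx (0 : Fin (e + 1) → ℤ) X).filter
      (fun z => z.1 ⬝ᵥ z.2 ≠ 0), ((E z).card : ℝ) := by
      exact_mod_cast Finset.card_biUnion_le
    refine g1.trans ((Finset.sum_le_sum hEc).trans ?_)
    rw [Finset.sum_const, nsmul_eq_mul]
    apply mul_le_mul_of_nonneg_right _ (by positivity)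
    have g2 := Finset.card_filter_le (bx (0 : Fin (e + 1) → ℤ) X ×ˢ bx (0 : Fin (e + 1) → ℤ) X)
      (fun z => z.1 ⬝ᵥ z.2 ≠ 0)
    rw [Finset.card_product, card_bx, Fintype.card_fin, ← pow_add, ← two_mul] at g2
    exact_mod_cast g2
  have h3 : (2 * (X : ℝ) + 1) ^ (2 * (e + 1)) ≤ (3 : ℝ) ^ (2 * (e + 1)) * (H : ℝ) ^ (δ₀ / 4) := by
    have g1 : 2 * (X : ℝ) + 1 ≤ 3 * (H : ℝ) ^ δ := by linarith
    have g2 : (2 * (X : ℝ) + 1) ^ (2 * (e + 1)) ≤ (3 * (H : ℝ) ^ δ) ^ (2 * (e + 1)) :=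
      pow_le_pow_left₀ (by positivity) g1 _
    refine g2.trans ?_
    rw [mul_pow, ← Real.rpow_natCast ((H : ℝ) ^ δ), ← Real.rpow_mul hH0.le]
    apply mul_le_mul_of_nonneg_left _ (by positivity)
    apply Real.rpow_le_rpow_of_exponent_le hHr
    push_cast
    linarith
  have h4 : (3 : ℝ) ^ (2 * (e + 1)) ≤ (H : ℝ) ^ (δ₀ / 2) := hH₃ H (by omega)
  have h5 : (H : ℝ) ^ (δ₀ / 2) * (H : ℝ) ^ (δ₀ / 4) * (H : ℝ) ^ (-δ₀) ≤ (H : ℝ) ^ (-δ) := by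
    rw [← Real.rpow_add hH0, ← Real.rpow_add hH0]
    apply Real.rpow_le_rpow_of_exponent_le hHr
    linarith
  calc _ ≤ ((((bx (0 : Fin (e + 1) → ℤ) X ×ˢ bx (0 : Fin (e + 1) → ℤ) X).filter
      (fun z => z.1 ⬝ᵥ z.2 ≠ 0)).biUnion E).card : ℝ) := by exact_mod_cast hsub
    _ ≤ (2 * (X : ℝ) + 1) ^ (2 * (e + 1)) * ((2 * (H : ℝ) + 1) ^ D * (H : ℝ) ^ (-δ₀)) := h2
    _ ≤ ((H : ℝ) ^ (δ₀ / 2) * (H : ℝ) ^ (δ₀ / 4)) * ((2 * (H : ℝ) + 1) ^ D * (H : ℝ) ^ (-δ₀)) := by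
        apply mul_le_mul_of_nonneg_right _ (by positivity)
        refine h3.trans ?_
        exact mul_le_mul_of_nonneg_right h4 (by positivity)
    _ = (2 * (H : ℝ) + 1) ^ D *
          ((H : ℝ) ^ (δ₀ / 2) * (H : ℝ) ^ (δ₀ / 4) * (H : ℝ) ^ (-δ₀)) := by ring
    _ ≤ _ := mul_le_mul_of_nonneg_left h5 (by positivity)

end Pool.Agent.Q183.SKM
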