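import Pool.Agent.Q183.SKM.Loc3

/-!
# Local densities for forms: counting matrices
-/

set_option autoImplicit false

namespace Pool.Agent.Q183.SKM

open Finset Matrix Pool.Agent.H884R2.Sko Pool.Agent.TH838.SK

/-- the orbit of `y` under the matrix is periodic and avoids the hypersurface -/
def GoodF {p e : ℕ} (T : ℕ) (F : MvPolynomial (Fin (e + 1)) (ZMod p)) (y : Fin (e + 1) → ZMod p)
    (v : Fin (e + 1) × Fin (e + 1) → ZMod p) : Prop :=
  mt v ^ T = 1 ∧ ∀ n, MvPolynomial.eval (mt v ^ n *ᵥ y) F ≠ 0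

theorem exists_R' {K : Type} [Field K] {e : ℕ} (y : Fin (e + 1) → K) (hy : y ≠ 0) :
    ∃ R : Matrix (Fin (e + 1)) (Fin (e + 1)) K, IsUnit R.det ∧ R *ᵥ (Pi.single 0 1) = y := by
  obtain ⟨i, hi⟩ := Function.ne_iff.1 hy
  obtain ⟨R, h1, _, h2⟩ := exists_R (Pi.single i 1) y (by rwa [single_one_dotProduct])
  exact ⟨R, h1, h2⟩

theorem card_pow_le (p d k T : ℕ) (hT : k * T = p - 1) (hp2 : 2 ≤ p)
    (hpj : 2 * k * d ≤ p) : p ^ d ≤ (2 * k) ^ d * d.factorial * T.choose d := by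
  have h1 := Nat.pow_sub_le_descFactorial T d
  rw [Nat.descFactorial_eq_factorial_mul_choose] at h1
  have hk : 1 ≤ k := by
    rcases Nat.eq_zero_or_pos k with h | h
    · rw [h, zero_mul] at hT
      omega
    · exact h
  have h2 : p ≤ 2 * k * (T + 1 - d) := by
    have h3 : p = k * T + 1 := by omega
    rcases Nat.eq_zero_or_pos d with h0 | h0
    · rw [h0, Nat.sub_zero]
      have h10 : 2 * k * (T + 1) = 2 * (k * T) + 2 * k := by ring
      omega
    obtain ⟨d', hd'⟩ : ∃ d', d = d' + 1 := ⟨d - 1, by omega⟩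
    rw [hd'] at hpj ⊢
    have h4 : d' + 1 ≤ T := by
      by_contra hcon
      push Not at hcon
      have : k * T ≤ k * (d' + 1 - 1) := Nat.mul_le_mul_left _ (by omega)
      have h5 : 2 * k * (d' + 1) = 2 * (k * d') + 2 * k := by ring
      have h6 : k * (d' + 1 - 1) = k * d' := by rw [Nat.add_sub_cancel]
      omega
    obtain ⟨t, rfl⟩ : ∃ t, T = d' + 1 + t := ⟨T - (d' + 1), by omega⟩
    have h7 : d' + 1 + t + 1 - (d' + 1) = t + 1 := by omega
    rw [h7]
    have h8 : 2 * k * (d' + 1) = 2 * (k * d') + 2 * k := by ring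
    have h9 : k * (d' + 1 + t) = k * d' + k + k * t := by ring
    have h10 : 2 * k * (t + 1) = 2 * (k * t) + 2 * k := by ring
    rw [h9] at h3
    rw [h8] at hpj
    rw [h10]
    omega
  calc p ^ d ≤ (2 * k * (T + 1 - d)) ^ d := Nat.pow_le_pow_left h2 _
    _ = (2 * k) ^ d * (T + 1 - d) ^ d := by rw [mul_pow]
    _ ≤ (2 * k) ^ d * (d.factorial * T.choose d) := Nat.mul_le_mul_left _ h1
    _ = (2 * k) ^ d * d.factorial * T.choose d := by ring

theorem card_form {p e r k T : ℕ} [Fact p.Prime] {F : MvPolynomial (Fin (e + 1)) (ZMod p)}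
    (hF : F.IsHomogeneous r) (hr : 1 ≤ r) (y : Fin (e + 1) → ZMod p)
    (hy : MvPolynomial.eval y F ≠ 0) (hk : 2 * r ≤ k) (hT : k * T = p - 1)
    (hp : 2 * k * (e + 1) ≤ p) :
    p ^ (e + 1) * p ^ e * Nat.card (GL (Fin e) (ZMod p)) ≤
      ((2 * k) ^ (e + 1) * (e + 1).factorial * 2) *
        Nat.card {v : Fin (e + 1) × Fin (e + 1) → ZMod p // GoodF T F y v} := by
  classical
  have hprime : p.Prime := Fact.out
  have hp2 : 2 ≤ p := hprime.two_le
  have hTpos : 0 < T := by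
    rcases Nat.eq_zero_or_pos T with h | h
    · rw [h, mul_zero] at hT
      omega
    · exact h
  have hy0 : y ≠ 0 := by
    intro h
    apply hy
    have h1 := eval_smul hF (0 : ZMod p) y
    rw [zero_smul, zero_pow (by omega), zero_mul] at h1
    rw [h]
    exact h1
  obtain ⟨R, hR, hRy⟩ := exists_R' y hy0
  obtain ⟨U, hU1, hU2⟩ := exists_powers p k T (by omega) hT
  have hrT : 2 * (r * T) ≤ Fintype.card (ZMod p) := by
    rw [ZMod.card]
    calc 2 * (r * T) = (2 * r) * T := by ring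
      _ ≤ k * T := Nat.mul_le_mul_right _ hk
      _ ≤ p := by omega
  have hdet : ∀ Q : GL (Fin e) (ZMod p), IsUnit (Q : Matrix (Fin e) (Fin e) (ZMod p)).det :=
    fun Q => (Matrix.isUnit_iff_isUnit_det _).1 Q.isUnit
  have hRy' : R⁻¹ *ᵥ y = Pi.single 0 1 := by
    rw [← hRy, Matrix.mulVec_mulVec, Matrix.nonsing_inv_mul _ hR, Matrix.one_mulVec]
  have hpow : ∀ (N : Matrix (Fin (e + 1)) (Fin (e + 1)) (ZMod p)) (n : ℕ),
      (R * N * R⁻¹) ^ n = R * N ^ n * R⁻¹ := by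
    intro N n
    induction n with
    | zero => rw [pow_zero, pow_zero, mul_one, Matrix.mul_nonsing_inv _ hR]
    | succ n ih =>
      rw [pow_succ, ih, pow_succ]
      have e1 : R * N ^ n * R⁻¹ * (R * N * R⁻¹) = R * N ^ n * (R⁻¹ * R) * N * R⁻¹ := by
        simp only [mul_assoc]
      rw [e1, Matrix.nonsing_inv_mul _ hR, mul_one]
      simp only [mul_assoc]
  have hval : ∀ (N : Matrix (Fin (e + 1)) (Fin (e + 1)) (ZMod p)) (n : ℕ),
      (R * Nᵀ * R⁻¹) ^ n *ᵥ y = R *ᵥ ((N ^ n) 0) := by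
    intro N n
    rw [hpow, ← Matrix.mulVec_mulVec, hRy', ← Matrix.mulVec_mulVec, ← Matrix.transpose_pow,
      Matrix.mulVec_single_one]
    rfl
  obtain ⟨I, hI⟩ : ∃ I : Finset (Finset (ZMod p) × GL (Fin e) (ZMod p)),
    I = (U.powersetCard (e + 1)) ×ˢ univ := ⟨_, rfl⟩
  obtain ⟨good, hgood⟩ : ∃ good : Finset (ZMod p) × GL (Fin e) (ZMod p) →
      Finset (Fin e → ZMod p), good = fun z => (univ : Finset (Fin e → ZMod p)).filter
      (fun a => ¬ ∃ n, MvPolynomial.eval (R *ᵥ ((Amat (coef (e + 1) z.1) a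
        (z.2 : Matrix (Fin e) (Fin e) (ZMod p)) ^ n) 0)) F = 0) := ⟨_, rfl⟩
  have hS : ∀ z ∈ I, z.1.card = e + 1 ∧ Smat (coef (e + 1) z.1) ^ T = 1 := by
    intro z hz
    rw [hI, Finset.mem_product, Finset.mem_powersetCard] at hz
    exact ⟨hz.1.2, Smat_T T z.1 hz.1.2 fun a ha => hU2 a (hz.1.1 ha)⟩
  have hgoodcard : ∀ z ∈ I, p ^ e ≤ 2 * (good z).card := by
    intro z hz
    have h1 := card_good_a hF hTpos (hS z hz).2 (hdet z.2) R (by rw [hRy]; exact hy) hrT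
    rw [ZMod.card] at h1
    rw [hgood]
    convert h1
  have hinj : ∑ z ∈ I, (good z).card ≤
      Nat.card {v : Fin (e + 1) × Fin (e + 1) → ZMod p // GoodF T F y v} := by
    rw [← Finset.card_sigma]
    have e1 : Nat.card {v : Fin (e + 1) × Fin (e + 1) → ZMod p // GoodF T F y v} =
        ((univ : Finset (Fin (e + 1) × Fin (e + 1) → ZMod p)).filter
          (fun v => GoodF T F y v)).card := by
      apply Nat.subtype_card
      intro v
      rw [Finset.mem_filter]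
      exact ⟨fun h => h.2, fun h => ⟨Finset.mem_univ _, h⟩⟩
    rw [e1]
    apply Finset.card_le_card_of_injOn (fun x : (_ : Finset (ZMod p) × GL (Fin e) (ZMod p)) ×
      (Fin e → ZMod p) => fun ij : Fin (e + 1) × Fin (e + 1) =>
        (R * (Amat (coef (e + 1) x.1.1) x.2 (x.1.2 : Matrix (Fin e) (Fin e) (ZMod p)))ᵀ * R⁻¹)
          ij.1 ij.2)
    · intro x hx
      rw [Finset.mem_coe, Finset.mem_sigma] at hx
      rw [Finset.mem_coe, Finset.mem_filter]
      have hm : mt (fun ij : Fin (e + 1) × Fin (e + 1) =>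
          (R * (Amat (coef (e + 1) x.1.1) x.2 (x.1.2 : Matrix (Fin e) (Fin e) (ZMod p)))ᵀ * R⁻¹)
            ij.1 ij.2) =
          R * (Amat (coef (e + 1) x.1.1) x.2 (x.1.2 : Matrix (Fin e) (Fin e) (ZMod p)))ᵀ * R⁻¹ := by
        ext i j
        rfl
      refine ⟨Finset.mem_univ _, ?_, ?_⟩
      · rw [hm, hpow, ← Matrix.transpose_pow, Amat_T (hS _ hx.1).2 _ (hdet _),
          Matrix.transpose_one, mul_one, Matrix.mul_nonsing_inv _ hR]
      · intro n hn
        rw [hm, hval] at hn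
        have h1 := hx.2
        rw [hgood, Finset.mem_filter] at h1
        exact h1.2 ⟨n, hn⟩
    · rintro ⟨⟨S, Q⟩, a⟩ hx ⟨⟨S', Q'⟩, a'⟩ hx' h
      rw [Finset.mem_coe, Finset.mem_sigma] at hx hx'
      have h1 : R * (Amat (coef (e + 1) S) a (Q : Matrix (Fin e) (Fin e) (ZMod p)))ᵀ * R⁻¹ =
          R * (Amat (coef (e + 1) S') a' (Q' : Matrix (Fin e) (Fin e) (ZMod p)))ᵀ * R⁻¹ := by
        ext i j
        exact congrFun h (i, j)
      have h2 : (Amat (coef (e + 1) S) a (Q : Matrix (Fin e) (Fin e) (ZMod p)))ᵀ =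
          (Amat (coef (e + 1) S') a' (Q' : Matrix (Fin e) (Fin e) (ZMod p)))ᵀ := by
        have e1 := congrArg (fun N => R⁻¹ * N * R) h1
        have e2 : ∀ N : Matrix (Fin (e + 1)) (Fin (e + 1)) (ZMod p),
            R⁻¹ * (R * N * R⁻¹) * R = N := by
          intro N
          have e3 : R⁻¹ * (R * N * R⁻¹) * R = (R⁻¹ * R) * N * (R⁻¹ * R) := by
            simp only [mul_assoc]
          rw [e3, Matrix.nonsing_inv_mul _ hR, one_mul, mul_one]
        rwa [e2, e2] at e1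
      have h2' := Matrix.transpose_injective h2
      obtain ⟨h3, h4, h5⟩ := Amat_inj (hdet _) (hdet _) h2'
      have h6 : S = S' := coef_inj (hS _ hx.1).1 (hS _ hx'.1).1 h3
      have h7 : Q = Q' := Units.ext h5
      subst h6
      subst h7
      subst h4
      rfl
  have hsum : I.card * p ^ e ≤ 2 * ∑ z ∈ I, (good z).card := by
    rw [Finset.mul_sum, ← smul_eq_mul I.card]
    exact Finset.card_nsmul_le_sum _ _ _ hgoodcard
  have hIc : I.card = T.choose (e + 1) * Nat.card (GL (Fin e) (ZMod p)) := by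
    rw [hI, Finset.card_product, Finset.card_powersetCard, hU1, Finset.card_univ,
      Nat.card_eq_fintype_card]
  have hch := card_pow_le p (e + 1) k T hT hp2 hp
  calc p ^ (e + 1) * p ^ e * Nat.card (GL (Fin e) (ZMod p)) ≤
      ((2 * k) ^ (e + 1) * (e + 1).factorial * T.choose (e + 1)) * p ^ e *
        Nat.card (GL (Fin e) (ZMod p)) :=
        Nat.mul_le_mul_right _ (Nat.mul_le_mul_right _ hch)
    _ = ((2 * k) ^ (e + 1) * (e + 1).factorial) * (I.card * p ^ e) := by rw [hIc]; ring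
    _ ≤ ((2 * k) ^ (e + 1) * (e + 1).factorial) * (2 * ∑ z ∈ I, (good z).card) :=
        Nat.mul_le_mul_left _ hsum
    _ = ((2 * k) ^ (e + 1) * (e + 1).factorial * 2) * ∑ z ∈ I, (good z).card := by ring
    _ ≤ _ := Nat.mul_le_mul_left _ hinj

/-- **Local densities for forms.** -/
theorem locF (e r : ℕ) (hr : 1 ≤ r) : ∃ κ : ℝ, 0 < κ ∧ ∀ p : ℕ, p.Prime →
    2 * (2 * r) * (e + 1) ≤ p → 2 * r ∣ p - 1 →
    ∀ (F : MvPolynomial (Fin (e + 1)) (ZMod p)) (y : Fin (e + 1) → ZMod p), F.IsHomogeneous r →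
      MvPolynomial.eval y F ≠ 0 →
      κ * (p : ℝ) ^ (Fintype.card (Fin (e + 1) × Fin (e + 1))) ≤
        (Nat.card {v : Fin (e + 1) × Fin (e + 1) → ZMod p //
          GoodF ((p - 1) / (2 * r)) F y v} : ℝ) := by
  refine ⟨1 / (((2 * (2 * r)) ^ (e + 1) * (e + 1).factorial * 2) * 2 ^ e), by positivity,
    fun p hp h4 hdvd F y hF hy => ?_⟩
  have : Fact p.Prime := ⟨hp⟩
  have hT : 2 * r * ((p - 1) / (2 * r)) = p - 1 := Nat.mul_div_cancel' hdvd
  have h1 := card_form hF hr y hy le_rfl hT h4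
  have h3 := card_GL_ge (p := p) (e := e)
  obtain ⟨N, hN⟩ : ∃ N : ℕ, N = Nat.card {v : Fin (e + 1) × Fin (e + 1) → ZMod p //
          GoodF ((p - 1) / (2 * r)) F y v} := ⟨_, rfl⟩
  rw [← hN] at h1 ⊢
  obtain ⟨G, hG⟩ : ∃ G : ℕ, G = Nat.card (GL (Fin e) (ZMod p)) := ⟨_, rfl⟩
  rw [← hG] at h1 h3
  obtain ⟨C, hC⟩ : ∃ C : ℕ, C = (2 * (2 * r)) ^ (e + 1) * (e + 1).factorial * 2 := ⟨_, rfl⟩
  have hC0 : 0 < C := by rw [hC]; positivity
  rw [← hC] at h1
  have hC' : ((2 * (2 * (r : ℝ))) ^ (e + 1) * ((e + 1).factorial : ℝ) * 2) = (C : ℝ) := by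
    rw [hC]
    push_cast
    ring
  rw [hC']
  have h5 : (p : ℝ) ^ (e + 1) * (p : ℝ) ^ e * G ≤ C * N := by exact_mod_cast h1
  have h6 : (p : ℝ) ^ (e + 1) * (p : ℝ) ^ e * ((p : ℝ) ^ (e * e) / 2 ^ e) ≤ C * N :=
    le_trans (mul_le_mul_of_nonneg_left h3 (by positivity)) h5
  have hCr : (0 : ℝ) < C := by exact_mod_cast hC0
  rw [div_mul_eq_mul_div, one_mul, div_le_iff₀ (by positivity)]
  have e3 : Fintype.card (Fin (e + 1) × Fin (e + 1)) = (e + 1) + e + e * e := by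
    rw [Fintype.card_prod, Fintype.card_fin]
    ring
  rw [e3, pow_add, pow_add]
  have h7 : (p : ℝ) ^ (e + 1) * (p : ℝ) ^ e * ((p : ℝ) ^ (e * e) / 2 ^ e) =
      (p : ℝ) ^ (e + 1) * (p : ℝ) ^ e * (p : ℝ) ^ (e * e) / 2 ^ e := by ring
  rw [h7, div_le_iff₀ (by positivity)] at h6
  linarith

end Pool.Agent.Q183.SKM
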