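import Pool.Agent.Q183.SKM.Uni
import Pool.Agent.TH838.SK.Uni

/-!
# Primes congruent to one and not dividing a given number
-/

set_option autoImplicit false

namespace Pool.Agent.Q183.SKM

open Filter Pool.Agent.H684R3.Smo Pool.Agent.H884R2.Sko Pool.Agent.TH838.SK

/-- many primes congruent to one and not dividing a given number -/
theorem primes_not_one (k p₀ : ℕ) (hk : 1 ≤ k) : ∃ A θ : ℝ, 0 < A ∧ 0 < θ ∧ 1 < A * θ ∧ ∃ H₀ : ℕ,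
    ∀ H : ℕ, H₀ ≤ H → ∀ s : ℕ, s ≠ 0 → s ≤ H ^ 3 → ∀ y : ℕ, Real.log H ^ A ≤ 4 * (y : ℝ) →
      (y : ℝ) ^ θ ≤ (Nat.card {p : ℕ // (p.Prime ∧ p₀ ≤ p ∧ k ∣ p - 1 ∧ ¬ p ∣ s) ∧ p ≤ y} : ℝ) := by
  obtain ⟨θ₁, hθ₁, y₁, hy₁⟩ := primes_one k hk p₀
  -- exponent at most one
  obtain ⟨θ', hθ'⟩ : ∃ θ' : ℝ, θ' = min θ₁ (1 / 2) := ⟨_, rfl⟩
  have hθ'0 : 0 < θ' := by rw [hθ']; exact lt_min hθ₁ (by norm_num)
  have hθ'1 : θ' ≤ θ₁ := by rw [hθ']; exact min_le_left _ _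
  have hθ'2 : θ' ≤ 1 / 2 := by rw [hθ']; exact min_le_right _ _
  obtain ⟨θ, hθ⟩ : ∃ θ : ℝ, θ = θ' / 2 := ⟨_, rfl⟩
  have hθ0 : 0 < θ := by rw [hθ]; linarith
  have hθθ' : θ < θ' := by rw [hθ]; linarith
  obtain ⟨A, hA⟩ : ∃ A : ℝ, A = 2 / θ := ⟨_, rfl⟩
  have hA0 : 0 < A := by rw [hA]; positivity
  have hAθ : A * θ = 2 := by rw [hA]; field_simp
  obtain ⟨a, ha⟩ : ∃ a : ℝ, a = 1 / A := ⟨_, rfl⟩
  have ha0 : 0 < a := by rw [ha]; positivity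
  have haθ : a < θ := by
    rw [ha, div_lt_iff₀ hA0]
    linarith [mul_comm A θ]
  have haA : A * a = 1 := by rw [ha]; field_simp
  have ha1 : a < 1 := by linarith
  have hev : ∀ᶠ y : ℕ in atTop, (21 : ℝ) ≤ (y : ℝ) ^ (θ' - θ) := by
    have : Tendsto (fun y : ℕ => (y : ℝ) ^ (θ' - θ)) atTop atTop :=
      (tendsto_rpow_atTop (by linarith)).comp tendsto_natCast_atTop_atTop
    exact this.eventually_ge_atTop _
  obtain ⟨y₂, hy₂⟩ := eventually_atTop.1 hev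
  have hlogH : Tendsto (fun H : ℕ => Real.log (H : ℝ) ^ A) atTop atTop :=
    (tendsto_rpow_atTop hA0).comp (Real.tendsto_log_atTop.comp tendsto_natCast_atTop_atTop)
  obtain ⟨H₁, hH₁⟩ := eventually_atTop.1 (hlogH.eventually_ge_atTop (4 * ((y₁ : ℝ) + y₂ + 1)))
  refine ⟨A, θ, hA0, hθ0, by linarith, H₁ + 2, fun H hH s hs hsH y hy => ?_⟩
  have hbig := hH₁ H (by omega)
  have hyy : (y₁ : ℝ) + y₂ + 1 ≤ y := by linarith
  have hy1 : y₁ ≤ y := by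
    have : (y₁ : ℝ) ≤ y := by
      have : (0 : ℝ) ≤ y₂ := Nat.cast_nonneg _
      linarith
    exact_mod_cast this
  have hy2 : y₂ ≤ y := by
    have : (y₂ : ℝ) ≤ y := by
      have : (0 : ℝ) ≤ y₁ := Nat.cast_nonneg _
      linarith
    exact_mod_cast this
  have hyr : (1 : ℝ) ≤ y := by
    have h1 : (0 : ℝ) ≤ y₁ := Nat.cast_nonneg _
    have h2 : (0 : ℝ) ≤ y₂ := Nat.cast_nonneg _
    linarith
  have hy0 : (0 : ℝ) < y := by linarith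
  have hH2 : 2 ≤ H := by omega
  have hHr : (2 : ℝ) ≤ H := by exact_mod_cast hH2
  have hlog0 : 0 ≤ Real.log H := Real.log_nonneg (by linarith)
  have hfin1 : ({p : ℕ | (p.Prime ∧ p₀ ≤ p ∧ k ∣ p - 1 ∧ ¬ p ∣ s) ∧ p ≤ y}).Finite :=
    Set.Finite.subset (Set.finite_le_nat y) (fun p hp => hp.2)
  have h1 : Nat.card {p : ℕ // (p.Prime ∧ p₀ ≤ p ∧ k ∣ p - 1) ∧ p ≤ y} ≤
      Nat.card {p : ℕ // (p.Prime ∧ p₀ ≤ p ∧ k ∣ p - 1 ∧ ¬ p ∣ s) ∧ p ≤ y} +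
        s.primeFactors.card := by
    have e1 : Nat.card {p : ℕ // (p.Prime ∧ p₀ ≤ p ∧ k ∣ p - 1) ∧ p ≤ y} =
        Set.ncard {p : ℕ | (p.Prime ∧ p₀ ≤ p ∧ k ∣ p - 1) ∧ p ≤ y} := rfl
    have e2 : Nat.card {p : ℕ // (p.Prime ∧ p₀ ≤ p ∧ k ∣ p - 1 ∧ ¬ p ∣ s) ∧ p ≤ y} =
        Set.ncard {p : ℕ | (p.Prime ∧ p₀ ≤ p ∧ k ∣ p - 1 ∧ ¬ p ∣ s) ∧ p ≤ y} := rfl
    have e3 : s.primeFactors.card = Set.ncard (s.primeFactors : Set ℕ) :=
      (Set.ncard_coe_finset _).symm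
    rw [e1, e2, e3]
    refine (Set.ncard_le_ncard ?_ (hfin1.union (Finset.finite_toSet _))).trans
      (Set.ncard_union_le _ _)
    intro p hp
    by_cases hd : p ∣ s
    · right
      exact Finset.mem_coe.2 (Nat.mem_primeFactors.2 ⟨hp.1.1, hd, hs⟩)
    · left
      exact ⟨⟨hp.1.1, hp.1.2.1, hp.1.2.2, hd⟩, hp.2⟩
  have h2 : (y : ℝ) ^ θ' ≤
      (Nat.card {p : ℕ // (p.Prime ∧ p₀ ≤ p ∧ k ∣ p - 1 ∧ ¬ p ∣ s) ∧ p ≤ y} : ℝ) +
      s.primeFactors.card := by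
    refine (Real.rpow_le_rpow_of_exponent_le hyr hθ'1).trans ((hy₁ y hy1).trans ?_)
    exact_mod_cast h1
  have h3 : (s.primeFactors.card : ℝ) ≤ 5 * Real.log H := by
    have e1 := omega_le s hs
    have e2 : Real.log s ≤ 3 * Real.log H := by
      have e3 : (s : ℝ) ≤ (H : ℝ) ^ 3 := by exact_mod_cast hsH
      have e4 := Real.log_le_log (by exact_mod_cast Nat.pos_of_ne_zero hs) e3
      rwa [Real.log_pow] at e4
    have e5 := Real.log_two_gt_d9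
    have e6 : (0 : ℝ) ≤ s.primeFactors.card := Nat.cast_nonneg _
    nlinarith
  have h4 : Real.log H ≤ 4 * (y : ℝ) ^ θ := by
    have e1 : (Real.log H ^ A) ^ a ≤ (4 * (y : ℝ)) ^ a :=
      Real.rpow_le_rpow (by positivity) hy ha0.le
    rw [← Real.rpow_mul hlog0, haA, Real.rpow_one,
      Real.mul_rpow (by norm_num) hy0.le] at e1
    have e2 : (4 : ℝ) ^ a ≤ 4 := by
      have := Real.rpow_le_rpow_of_exponent_le (show (1 : ℝ) ≤ 4 by norm_num) ha1.le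
      rwa [Real.rpow_one] at this
    have e3 : (y : ℝ) ^ a ≤ (y : ℝ) ^ θ := Real.rpow_le_rpow_of_exponent_le hyr haθ.le
    exact e1.trans (mul_le_mul e2 e3 (by positivity) (by norm_num))
  have h5 : 21 * (y : ℝ) ^ θ ≤ (y : ℝ) ^ θ' := by
    have e1 := hy₂ y hy2
    have e2 : (y : ℝ) ^ θ' = (y : ℝ) ^ (θ' - θ) * (y : ℝ) ^ θ := by
      rw [← Real.rpow_add hy0]
      congr 1
      ring
    rw [e2]
    exact mul_le_mul_of_nonneg_right e1 (by positivity)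
  linarith

end Pool.Agent.Q183.SKM
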