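import Pool.Agent.Q183.SKM.Fin
import Pool.Agent.Q183.SKM.Uni2
import Pool.Agent.Q183.SKM.Loc4

/-!
# The orbits of a random matrix and hypersurfaces
-/

set_option autoImplicit false

namespace Pool.Agent.Q183.SKM

open Filter Matrix Pool.Agent.H684R3.Smo Pool.Agent.H884R2.Sko

/-- A certificate for `(M, y, F)`: a prime `p ≤ (log H) ^ A` such that `M ^ ((p - 1) / (2 r))` is
the identity modulo `p` and `p` divides none of the integers `F (M ^ n y)`. -/
def CertF (A : ℝ) (r H : ℕ) {d : ℕ} (M : Matrix (Fin d) (Fin d) ℤ) (y : Fin d → ℤ)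
    (F : MvPolynomial (Fin d) ℤ) : Prop :=
  ∃ p : ℕ, p.Prime ∧ (p : ℝ) ≤ Real.log H ^ A ∧ 2 * r ∣ p - 1 ∧
    (∀ i j, (p : ℤ) ∣ (M ^ ((p - 1) / (2 * r)) - 1) i j) ∧
    ∀ n : ℕ, ¬ (p : ℤ) ∣ MvPolynomial.eval (M ^ n *ᵥ y) F

theorem cast_pow {d : ℕ} (p : ℕ) (M : Matrix (Fin d) (Fin d) ℤ) (n : ℕ) :
    (M ^ n).map (Int.castRingHom (ZMod p)) = (M.map (Int.castRingHom (ZMod p))) ^ n := by
  have := map_pow (Int.castRingHom (ZMod p)).mapMatrix M n
  simpa [RingHom.mapMatrix_apply] using this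

theorem cast_eval {d : ℕ} (p : ℕ) (M : Matrix (Fin d) (Fin d) ℤ) (y : Fin d → ℤ)
    (F : MvPolynomial (Fin d) ℤ) (n : ℕ) :
    ((MvPolynomial.eval (M ^ n *ᵥ y) F : ℤ) : ZMod p) =
      MvPolynomial.eval ((M.map (Int.castRingHom (ZMod p))) ^ n *ᵥ (fun i => (y i : ZMod p)))
        (MvPolynomial.map (Int.castRingHom (ZMod p)) F) := by
  rw [← cast_pow, MvPolynomial.eval_map]
  have h1 : ((MvPolynomial.eval (M ^ n *ᵥ y) F : ℤ) : ZMod p) =
      Int.castRingHom (ZMod p) (MvPolynomial.eval (M ^ n *ᵥ y) F) := rfl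
  rw [h1, MvPolynomial.eval, MvPolynomial.coe_eval₂Hom, MvPolynomial.eval₂_comp_left]
  congr 1
  funext i
  exact RingHom.map_mulVec _ _ _ _

/-- the exponent -/
noncomputable def fx {d r : ℕ} (f : Fin d → Fin (r + 1)) : Fin d →₀ ℕ :=
  Finsupp.equivFunOnFinite.symm fun i => (f i : ℕ)

theorem fx_inj {d r : ℕ} : Function.Injective (fx : (Fin d → Fin (r + 1)) → _) := by
  intro f f' h
  funext i
  apply Fin.ext
  have := DFunLike.congr_fun h i
  simpa [fx] using this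

/-- the polynomial with coefficients `w` -/
noncomputable def pol {d r : ℕ} (w : (Fin d → Fin (r + 1)) → ℤ) : MvPolynomial (Fin d) ℤ :=
  ∑ f, MvPolynomial.monomial (fx f) (w f)

theorem pol_coeff {d r : ℕ} {F : MvPolynomial (Fin d) ℤ} (hF : F.IsHomogeneous r) :
    pol (r := r) (fun f => F.coeff (fx f)) = F := by
  classical
  ext m
  unfold pol
  rw [MvPolynomial.coeff_sum]
  by_cases hm : F.coeff m = 0
  · rw [hm]
    apply Finset.sum_eq_zero
    intro f _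
    rw [MvPolynomial.coeff_monomial]
    split_ifs with h
    · simp only
      rw [h, hm]
    · rfl
  · have h1 := hF.degree_eq_sum_deg_support (MvPolynomial.mem_support_iff.2 hm)
    have hle : ∀ i, m i ≤ r := by
      intro i
      by_cases hi : i ∈ m.support
      · rw [h1]
        exact Finset.single_le_sum (f := fun i => m i) (fun _ _ => Nat.zero_le _) hi
      · rw [Finsupp.notMem_support_iff.1 hi]
        exact Nat.zero_le _
    obtain ⟨f, hf⟩ : ∃ f : Fin d → Fin (r + 1), fx f = m := by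
      refine ⟨fun i => ⟨m i, by have := hle i; omega⟩, ?_⟩
      ext i
      simp [fx]
    rw [Finset.sum_eq_single f]
    · rw [MvPolynomial.coeff_monomial, if_pos hf]
      simp only
      rw [hf]
    · intro g _ hg
      rw [MvPolynomial.coeff_monomial, if_neg (fun h => hg (fx_inj (h.trans hf.symm)))]
    · intro h
      exact absurd (Finset.mem_univ _) h

theorem eval_pol_le {d r : ℕ} (w : (Fin d → Fin (r + 1)) → ℤ) (y : Fin d → ℤ) (X : ℕ)
    (hX : 1 ≤ X) (hw : ∀ f, |w f| ≤ X) (hy : ∀ i, |y i| ≤ X)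
    (hhom : (pol w).IsHomogeneous r) :
    (MvPolynomial.eval y (pol w)).natAbs ≤ (r + 1) ^ d * X ^ (r + 1) := by
  classical
  have hXZ : (1 : ℤ) ≤ X := by exact_mod_cast hX
  have h1 : |MvPolynomial.eval y (pol w)| ≤ ∑ _f : Fin d → Fin (r + 1), (X : ℤ) ^ (r + 1) := by
    have h0 : MvPolynomial.eval y (pol w) = ∑ f, w f * ∏ i, y i ^ (f i : ℕ) := by
      unfold pol
      rw [map_sum]
      refine Finset.sum_congr rfl fun f _ => ?_
      rw [MvPolynomial.eval_monomial, Finsupp.prod_fintype _ _ (fun i => pow_zero _)]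
      rfl
    rw [h0]
    refine (Finset.abs_sum_le_sum_abs _ _).trans (Finset.sum_le_sum fun f _ => ?_)
    by_cases hf : w f = 0
    · rw [hf, zero_mul, abs_zero]
      positivity
    · have hc : (pol w).coeff (fx f) = w f := by
        unfold pol
        rw [MvPolynomial.coeff_sum, Finset.sum_eq_single f]
        · rw [MvPolynomial.coeff_monomial, if_pos rfl]
        · intro g _ hg
          rw [MvPolynomial.coeff_monomial, if_neg (fun h => hg (fx_inj h))]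
        · intro h
          exact absurd (Finset.mem_univ _) h
      have h2 := hhom.degree_eq_sum_deg_support (MvPolynomial.mem_support_iff.2 (by
        rw [hc]; exact hf) : fx f ∈ (pol w).support)
      have h3 : ∑ i, (f i : ℕ) = r := by
        refine Eq.trans ?_ h2.symm
        symm
        exact Finset.sum_subset (Finset.subset_univ _) fun i _ hi =>
          Finsupp.notMem_support_iff.1 hi
      rw [abs_mul, Finset.abs_prod, pow_succ, mul_comm]
      refine mul_le_mul ?_ (hw f) (abs_nonneg _) (by positivity)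
      calc ∏ i, |y i ^ (f i : ℕ)| ≤ ∏ i, (X : ℤ) ^ (f i : ℕ) := by
            refine Finset.prod_le_prod (fun i _ => abs_nonneg _) fun i _ => ?_
            rw [abs_pow]
            exact pow_le_pow_left₀ (abs_nonneg _) (hy i) _
        _ = (X : ℤ) ^ r := by rw [Finset.prod_pow_eq_pow_sum, h3]
  rw [Finset.sum_const, Finset.card_univ, Fintype.card_fun, Fintype.card_fin, Fintype.card_fin,
    nsmul_eq_mul] at h1
  have h2 : ((MvPolynomial.eval y (pol w)).natAbs : ℤ) ≤ (((r + 1) ^ d : ℕ) : ℤ) * X ^ (r + 1) := by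
    rw [Int.natCast_natAbs]
    exact h1
  exact_mod_cast h2

open scoped Classical in
/-- **The main theorem for forms.** -/
theorem main2 (e r : ℕ) (hr : 1 ≤ r) : ∃ A δ : ℝ, 0 < A ∧ 0 < δ ∧ ∃ H₀ : ℕ, ∀ H : ℕ, H₀ ≤ H →
    ∀ b : Fin (e + 1) × Fin (e + 1) → ℤ,
      (Nat.card {v : Fin (e + 1) × Fin (e + 1) → ℤ // v ∈ bx b H ∧
        ¬ ∀ (F : MvPolynomial (Fin (e + 1)) ℤ) (y : Fin (e + 1) → ℤ), F.IsHomogeneous r →
          (∀ m, |((F.coeff m : ℤ) : ℝ)| ≤ (H : ℝ) ^ δ) → (∀ i, |(y i : ℝ)| ≤ (H : ℝ) ^ δ) →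
            MvPolynomial.eval y F ≠ 0 → CertF A r H (mt v) y F} : ℝ) ≤
        (2 * (H : ℝ) + 1) ^ (Fintype.card (Fin (e + 1) × Fin (e + 1))) * (H : ℝ) ^ (-δ) := by
  obtain ⟨κ, hκ, hloc⟩ := locF e r hr
  obtain ⟨A, θ, hA0, hθ, hAθ, H₁, hprimes⟩ := primes_not_one (2 * r) (2 * (2 * r) * (e + 1))
    (by omega)
  obtain ⟨δ₀, hδ₀, H₂, hsieve⟩ := t5v (Fin (e + 1) × Fin (e + 1)) κ θ A hκ hθ hA0 hAθ
  obtain ⟨N, hN⟩ : ∃ N : ℕ, N = (r + 1) ^ (e + 1) := ⟨_, rfl⟩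
  obtain ⟨δ, hδ⟩ : ∃ δ : ℝ, δ = min (δ₀ / (4 * ((N : ℝ) + e + 1))) (1 / ((r : ℝ) + 1)) := ⟨_, rfl⟩
  have hNe : (1 : ℝ) ≤ (N : ℝ) + e + 1 := by
    have h1 : (0 : ℝ) ≤ e := Nat.cast_nonneg e
    have h2 : (0 : ℝ) ≤ N := Nat.cast_nonneg N
    linarith
  have hδ0 : 0 < δ := by rw [hδ]; positivity
  have hδr : δ * ((r : ℝ) + 1) ≤ 1 := by
    have h1 : δ ≤ 1 / ((r : ℝ) + 1) := by rw [hδ]; exact min_le_right _ _
    rwa [le_div_iff₀ (by positivity)] at h1
  have hδ2 : δ * (4 * ((N : ℝ) + e + 1)) ≤ δ₀ := by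
    have h1 : δ ≤ δ₀ / (4 * ((N : ℝ) + e + 1)) := by rw [hδ]; exact min_le_left _ _
    rwa [le_div_iff₀ (by positivity)] at h1
  have hδ3 : 4 * δ ≤ δ₀ := by nlinarith
  have hev : ∀ᶠ H : ℕ in atTop, ((3 : ℝ) ^ (N + (e + 1))) ≤ (H : ℝ) ^ (δ₀ / 2) := by
    have : Tendsto (fun y : ℕ => (y : ℝ) ^ (δ₀ / 2)) atTop atTop :=
      (tendsto_rpow_atTop (by linarith)).comp tendsto_natCast_atTop_atTop
    exact this.eventually_ge_atTop _
  obtain ⟨H₃, hH₃⟩ := eventually_atTop.1 hev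
  refine ⟨A, δ, hA0, hδ0, H₁ + H₂ + H₃ + N + 2, fun H hH b => ?_⟩
  have hH1 : 1 ≤ H := by omega
  have hHr : (1 : ℝ) ≤ H := by exact_mod_cast hH1
  have hH0 : (0 : ℝ) < H := by linarith
  obtain ⟨D, hD⟩ : ∃ D : ℕ, D = Fintype.card (Fin (e + 1) × Fin (e + 1)) := ⟨_, rfl⟩
  rw [← hD]
  obtain ⟨X, hX⟩ : ∃ X : ℕ, X = ⌊(H : ℝ) ^ δ⌋₊ := ⟨_, rfl⟩
  have hX1 : (X : ℝ) ≤ (H : ℝ) ^ δ := by
    rw [hX]
    exact Nat.floor_le (by positivity)
  have hHδ1 : 1 ≤ (H : ℝ) ^ δ := Real.one_le_rpow hHr hδ0.le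
  have hXpos : 1 ≤ X := by
    rw [hX]
    exact Nat.le_floor (by exact_mod_cast hHδ1)
  have hXH : X ^ (r + 1) ≤ H := by
    have h1 : ((H : ℝ) ^ δ) ^ (r + 1) ≤ H := by
      rw [← Real.rpow_natCast, ← Real.rpow_mul hH0.le]
      have := Real.rpow_le_rpow_of_exponent_le hHr (show δ * ((r + 1 : ℕ) : ℝ) ≤ 1 by
        push_cast
        exact hδr)
      rwa [Real.rpow_one] at this
    have h2 : (X : ℝ) ^ (r + 1) ≤ H := (pow_le_pow_left₀ (Nat.cast_nonneg _) hX1 _).trans h1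
    exact_mod_cast h2
  -- the exceptional set of one instance
  obtain ⟨E, hE⟩ : ∃ E : ((Fin (e + 1) → Fin (r + 1)) → ℤ) × (Fin (e + 1) → ℤ) →
      Finset (Fin (e + 1) × Fin (e + 1) → ℤ), E = fun z => (bx b H).filter (fun v =>
        ∀ p : ℕ, (p.Prime ∧ 2 * (2 * r) * (e + 1) ≤ p ∧ 2 * r ∣ p - 1 ∧
            ¬ p ∣ (MvPolynomial.eval z.2 (pol z.1)).natAbs) →
          (p : ℝ) ≤ Real.log H ^ A → (fun i => (v i : ZMod p)) ∉
            {v : Fin (e + 1) × Fin (e + 1) → ZMod p |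
              GoodF ((p - 1) / (2 * r)) (MvPolynomial.map (Int.castRingHom (ZMod p)) (pol z.1))
                (fun i => (z.2 i : ZMod p)) v}) := ⟨_, rfl⟩
  obtain ⟨Z, hZ⟩ : ∃ Z : Finset (((Fin (e + 1) → Fin (r + 1)) → ℤ) × (Fin (e + 1) → ℤ)),
      Z = (bx (0 : (Fin (e + 1) → Fin (r + 1)) → ℤ) X ×ˢ bx (0 : Fin (e + 1) → ℤ) X).filter
        (fun z => (pol z.1).IsHomogeneous r ∧ MvPolynomial.eval z.2 (pol z.1) ≠ 0) := ⟨_, rfl⟩
  have hEc : ∀ z ∈ Z, ((E z).card : ℝ) ≤ (2 * (H : ℝ) + 1) ^ D * (H : ℝ) ^ (-δ₀) := by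
    intro z hz
    rw [hZ, Finset.mem_filter, Finset.mem_product, mem_bx, mem_bx] at hz
    obtain ⟨⟨hz1, hz2⟩, hz3, hz4⟩ := hz
    have hs0 : (MvPolynomial.eval z.2 (pol z.1)).natAbs ≠ 0 := Int.natAbs_ne_zero.2 hz4
    have hsH : (MvPolynomial.eval z.2 (pol z.1)).natAbs ≤ H ^ 3 := by
      have h1 := eval_pol_le z.1 z.2 X hXpos (fun f => by simpa using hz1 f)
        (fun i => by simpa using hz2 i) hz3
      refine h1.trans ?_
      rw [← hN]
      calc N * X ^ (r + 1) ≤ H * H := Nat.mul_le_mul (by omega) hXH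
        _ ≤ H * H * H := Nat.le_mul_of_pos_right _ hH1
        _ = H ^ 3 := by ring
    have key := hsieve H (by omega)
      (fun p => p.Prime ∧ 2 * (2 * r) * (e + 1) ≤ p ∧ 2 * r ∣ p - 1 ∧
            ¬ p ∣ (MvPolynomial.eval z.2 (pol z.1)).natAbs)
      (fun p => {v : Fin (e + 1) × Fin (e + 1) → ZMod p |
              GoodF ((p - 1) / (2 * r)) (MvPolynomial.map (Int.castRingHom (ZMod p)) (pol z.1))
                (fun i => (z.2 i : ZMod p)) v}) ?_ ?_ b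
    · have h1 : Nat.card {v : Fin (e + 1) × Fin (e + 1) → ℤ // v ∈ bx b H ∧ ∀ p,
          (p.Prime ∧ 2 * (2 * r) * (e + 1) ≤ p ∧ 2 * r ∣ p - 1 ∧
            ¬ p ∣ (MvPolynomial.eval z.2 (pol z.1)).natAbs) → (p : ℝ) ≤ Real.log H ^ A →
          (fun i => (v i : ZMod p)) ∉ {v : Fin (e + 1) × Fin (e + 1) → ZMod p |
              GoodF ((p - 1) / (2 * r)) (MvPolynomial.map (Int.castRingHom (ZMod p)) (pol z.1))
                (fun i => (z.2 i : ZMod p)) v}} = (E z).card := by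
        apply Nat.subtype_card
        intro v
        rw [hE, Finset.mem_filter]
      rw [h1] at key
      rw [hD]
      exact key
    · rintro p ⟨hp, hp4, hpr, hps⟩
      refine ⟨hp, ?_⟩
      apply hloc p hp hp4 hpr _ _ (hz3.map _)
      intro h0
      apply hps
      have h1 := cast_eval p (1 : Matrix (Fin (e + 1)) (Fin (e + 1)) ℤ) z.2 (pol z.1) 0
      rw [pow_zero, pow_zero, Matrix.one_mulVec, Matrix.one_mulVec, h0,
        ZMod.intCast_zmod_eq_zero_iff_dvd] at h1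
      exact Int.natCast_dvd.1 h1
    · exact hprimes H (by omega) _ hs0 hsH
  -- the union
  have hsub : Nat.card {v : Fin (e + 1) × Fin (e + 1) → ℤ // v ∈ bx b H ∧
        ¬ ∀ (F : MvPolynomial (Fin (e + 1)) ℤ) (y : Fin (e + 1) → ℤ), F.IsHomogeneous r →
          (∀ m, |((F.coeff m : ℤ) : ℝ)| ≤ (H : ℝ) ^ δ) → (∀ i, |(y i : ℝ)| ≤ (H : ℝ) ^ δ) →
            MvPolynomial.eval y F ≠ 0 → CertF A r H (mt v) y F} ≤ (Z.biUnion E).card := by
    have h1 : Nat.card {v : Fin (e + 1) × Fin (e + 1) → ℤ // v ∈ bx b H ∧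
        ¬ ∀ (F : MvPolynomial (Fin (e + 1)) ℤ) (y : Fin (e + 1) → ℤ), F.IsHomogeneous r →
          (∀ m, |((F.coeff m : ℤ) : ℝ)| ≤ (H : ℝ) ^ δ) → (∀ i, |(y i : ℝ)| ≤ (H : ℝ) ^ δ) →
            MvPolynomial.eval y F ≠ 0 → CertF A r H (mt v) y F} =
        ((bx b H).filter (fun v => ¬ ∀ (F : MvPolynomial (Fin (e + 1)) ℤ) (y : Fin (e + 1) → ℤ),
          F.IsHomogeneous r → (∀ m, |((F.coeff m : ℤ) : ℝ)| ≤ (H : ℝ) ^ δ) →
          (∀ i, |(y i : ℝ)| ≤ (H : ℝ) ^ δ) →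
            MvPolynomial.eval y F ≠ 0 → CertF A r H (mt v) y F)).card := by
      apply Nat.subtype_card
      intro v
      rw [Finset.mem_filter]
    rw [h1]
    refine Finset.card_le_card fun v hv => ?_
    rw [Finset.mem_filter] at hv
    obtain ⟨hv1, hv2⟩ := hv
    push Not at hv2
    obtain ⟨F, y, hF, hFc, hy, hFy, hno⟩ := hv2
    rw [Finset.mem_biUnion]
    have hfl : ∀ z : ℤ, |(z : ℝ)| ≤ (H : ℝ) ^ δ → |z| ≤ X := by
      intro z hz
      have h2 : ((z.natAbs : ℕ) : ℝ) ≤ (H : ℝ) ^ δ := by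
        rw [Nat.cast_natAbs]
        push_cast
        exact hz
      have h3 : z.natAbs ≤ X := by
        rw [hX]
        exact Nat.le_floor h2
      rw [← Int.natCast_natAbs]
      exact_mod_cast h3
    have hpol := pol_coeff hF
    refine ⟨(fun f => F.coeff (fx f), y), ?_, ?_⟩
    · rw [hZ, Finset.mem_filter, Finset.mem_product, mem_bx, mem_bx]
      simp only
      rw [hpol]
      refine ⟨⟨fun f => ?_, fun i => ?_⟩, hF, hFy⟩
      · simpa using hfl _ (hFc _)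
      · simpa using hfl _ (hy i)
    · rw [hE, Finset.mem_filter]
      simp only
      rw [hpol]
      refine ⟨hv1, fun p hp hpA hgood => hno ?_⟩
      have hmap : ((mt v).map (Int.castRingHom (ZMod p))) = mt (fun i => (v i : ZMod p)) := by
        ext i j
        rfl
      have hg : GoodF ((p - 1) / (2 * r)) (MvPolynomial.map (Int.castRingHom (ZMod p)) F)
          (fun i => (y i : ZMod p)) (fun i => (v i : ZMod p)) := hgood
      refine ⟨p, hp.1, hpA, hp.2.2.1, fun i j => ?_, fun n hd => ?_⟩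
      · have h2 := hg.1
        rw [← hmap, ← cast_pow] at h2
        have h3 := congrFun (congrFun h2 i) j
        rw [Matrix.map_apply] at h3
        rw [← ZMod.intCast_zmod_eq_zero_iff_dvd, Matrix.sub_apply, Int.cast_sub]
        have h4 : (((mt v ^ ((p - 1) / (2 * r))) i j : ℤ) : ZMod p) =
          (1 : Matrix (Fin (e + 1)) (Fin (e + 1)) (ZMod p)) i j := h3
        rw [h4, Matrix.one_apply, Matrix.one_apply]
        split_ifs <;> simp
      · apply hg.2 n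
        rw [← hmap, ← cast_eval]
        exact (ZMod.intCast_zmod_eq_zero_iff_dvd _ _).2 hd
  have h2 : ((Z.biUnion E).card : ℝ) ≤
      (2 * (X : ℝ) + 1) ^ (N + (e + 1)) * ((2 * (H : ℝ) + 1) ^ D * (H : ℝ) ^ (-δ₀)) := by
    have g1 : ((Z.biUnion E).card : ℝ) ≤ ∑ z ∈ Z, ((E z).card : ℝ) := by
      exact_mod_cast Finset.card_biUnion_le
    refine g1.trans ((Finset.sum_le_sum hEc).trans ?_)
    rw [Finset.sum_const, nsmul_eq_mul]
    apply mul_le_mul_of_nonneg_right _ (by positivity)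
    have g2 : Z.card ≤ (bx (0 : (Fin (e + 1) → Fin (r + 1)) → ℤ) X ×ˢ
        bx (0 : Fin (e + 1) → ℤ) X).card := by
      rw [hZ]
      exact Finset.card_filter_le _ _
    rw [Finset.card_product, card_bx, card_bx, Fintype.card_fin, Fintype.card_fun,
      Fintype.card_fin, Fintype.card_fin, ← pow_add, ← hN] at g2
    exact_mod_cast g2
  have h3 : (2 * (X : ℝ) + 1) ^ (N + (e + 1)) ≤
      (3 : ℝ) ^ (N + (e + 1)) * (H : ℝ) ^ (δ₀ / 4) := by
    have g1 : 2 * (X : ℝ) + 1 ≤ 3 * (H : ℝ) ^ δ := by linarith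
    have g2 : (2 * (X : ℝ) + 1) ^ (N + (e + 1)) ≤ (3 * (H : ℝ) ^ δ) ^ (N + (e + 1)) :=
      pow_le_pow_left₀ (by positivity) g1 _
    refine g2.trans ?_
    rw [mul_pow, ← Real.rpow_natCast ((H : ℝ) ^ δ), ← Real.rpow_mul hH0.le]
    apply mul_le_mul_of_nonneg_left _ (by positivity)
    apply Real.rpow_le_rpow_of_exponent_le hHr
    push_cast
    linarith
  have h4 : (3 : ℝ) ^ (N + (e + 1)) ≤ (H : ℝ) ^ (δ₀ / 2) := hH₃ H (by omega)
  have h5 : (H : ℝ) ^ (δ₀ / 2) * (H : ℝ) ^ (δ₀ / 4) * (H : ℝ) ^ (-δ₀) ≤ (H : ℝ) ^ (-δ) := by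
    rw [← Real.rpow_add hH0, ← Real.rpow_add hH0]
    apply Real.rpow_le_rpow_of_exponent_le hHr
    linarith
  calc _ ≤ ((Z.biUnion E).card : ℝ) := by exact_mod_cast hsub
    _ ≤ (2 * (X : ℝ) + 1) ^ (N + (e + 1)) * ((2 * (H : ℝ) + 1) ^ D * (H : ℝ) ^ (-δ₀)) := h2
    _ ≤ ((H : ℝ) ^ (δ₀ / 2) * (H : ℝ) ^ (δ₀ / 4)) * ((2 * (H : ℝ) + 1) ^ D * (H : ℝ) ^ (-δ₀)) := by
        apply mul_le_mul_of_nonneg_right _ (by positivity)
        refine h3.trans ?_
        exact mul_le_mul_of_nonneg_right h4 (by positivity)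
    _ = (2 * (H : ℝ) + 1) ^ D *
          ((H : ℝ) ^ (δ₀ / 2) * (H : ℝ) ^ (δ₀ / 4) * (H : ℝ) ^ (-δ₀)) := by ring
    _ ≤ _ := mul_le_mul_of_nonneg_left h5 (by positivity)

end Pool.Agent.Q183.SKM
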