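import Pool.Agent.Q183.SKM.Loc2
import Pool.Agent.TH838.SK.Count

/-!
# Forms on orbits of matrices modulo a prime
-/

set_option autoImplicit false

namespace Pool.Agent.Q183.SKM

open Finset Matrix Pool.Agent.H884R2.Sko

section
variable {K : Type} [Field K]

theorem hom_smul {σ L : Type*} [Fintype σ] [CommRing L] [Algebra K L] {F : MvPolynomial σ K}
    {r : ℕ} (hF : F.IsHomogeneous r) (u : L) (v : σ → L) :
    MvPolynomial.aeval (fun i => u * v i) F = u ^ r * MvPolynomial.aeval v F := by
  rw [MvPolynomial.aeval_def, MvPolynomial.aeval_def, MvPolynomial.eval₂_eq',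
    MvPolynomial.eval₂_eq', Finset.mul_sum]
  refine Finset.sum_congr rfl fun m hm => ?_
  have h1 := hF.degree_eq_sum_deg_support hm
  have h3 : ∑ i ∈ m.support, m i = ∑ i, m i :=
    Finset.sum_subset (Finset.subset_univ _) fun i _ hi => Finsupp.notMem_support_iff.1 hi
  rw [h3] at h1
  have h2 : ∏ i, (u * v i) ^ m i = u ^ r * ∏ i, v i ^ m i := by
    simp only [mul_pow, Finset.prod_mul_distrib, Finset.prod_pow_eq_pow_sum]
    rw [h1]
  rw [h2]
  ring

/-- On the line through `z` with direction `y` a form of degree `r` which does not vanish at `y`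
has at most `r` zeros. -/
theorem line_roots {σ : Type*} [Fintype σ] [Fintype K] [DecidableEq K] {F : MvPolynomial σ K}
    {r : ℕ} (hF : F.IsHomogeneous r) (y z : σ → K) (hy : MvPolynomial.eval y F ≠ 0) :
    ((univ : Finset K).filter (fun t => MvPolynomial.eval (fun i => z i + t * y i) F = 0)).card ≤
      r := by
  obtain ⟨P, hP⟩ : ∃ P : Polynomial K, P = MvPolynomial.aeval
    (fun i => Polynomial.C (z i) + Polynomial.X * Polynomial.C (y i)) F := ⟨_, rfl⟩
  obtain ⟨Q, hQ⟩ : ∃ Q : Polynomial K, Q = MvPolynomial.aeval
    (fun i => Polynomial.X * Polynomial.C (z i) + Polynomial.C (y i)) F := ⟨_, rfl⟩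
  have hPe : ∀ t : K, P.eval t = MvPolynomial.eval (fun i => z i + t * y i) F := by
    intro t
    have h1 := MvPolynomial.comp_aeval_apply (φ := Polynomial.aeval t)
      (f := fun i => Polynomial.C (z i) + Polynomial.X * Polynomial.C (y i)) F
    rw [← hP, Polynomial.coe_aeval_eq_eval] at h1
    rw [h1, ← MvPolynomial.aeval_eq_eval]
    have h2 : (fun i => Polynomial.eval t (Polynomial.C (z i) + Polynomial.X * Polynomial.C (y i))) =
        fun i => z i + t * y i := by
      funext i
      simp only [Polynomial.eval_add, Polynomial.eval_mul, Polynomial.eval_C, Polynomial.eval_X]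
    rw [h2]
  have hQ0 : Q.eval 0 = MvPolynomial.eval y F := by
    have h1 := MvPolynomial.comp_aeval_apply (φ := Polynomial.aeval (0 : K))
      (f := fun i => Polynomial.X * Polynomial.C (z i) + Polynomial.C (y i)) F
    rw [← hQ, Polynomial.coe_aeval_eq_eval] at h1
    rw [h1, ← MvPolynomial.aeval_eq_eval]
    have h2 : (fun i => Polynomial.eval 0 (Polynomial.X * Polynomial.C (z i) +
        Polynomial.C (y i))) = y := by
      funext i
      simp
    rw [h2]
  have hPne : P ≠ 0 := by
    intro h0
    have hX : (RatFunc.X : RatFunc K) ≠ 0 := RatFunc.X_ne_zero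
    have h1 := MvPolynomial.comp_aeval_apply (φ := Polynomial.aeval (RatFunc.X⁻¹ : RatFunc K))
      (f := fun i => Polynomial.C (z i) + Polynomial.X * Polynomial.C (y i)) F
    rw [← hP, h0, map_zero] at h1
    have h2 := MvPolynomial.comp_aeval_apply (φ := Polynomial.aeval (RatFunc.X : RatFunc K))
      (f := fun i => Polynomial.X * Polynomial.C (z i) + Polynomial.C (y i)) F
    rw [← hQ] at h2
    have h3 : (fun i => Polynomial.aeval (RatFunc.X : RatFunc K)
        (Polynomial.X * Polynomial.C (z i) + Polynomial.C (y i))) = fun i => RatFunc.X *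
          Polynomial.aeval (RatFunc.X⁻¹ : RatFunc K)
            (Polynomial.C (z i) + Polynomial.X * Polynomial.C (y i)) := by
      funext i
      simp only [map_add, map_mul, Polynomial.aeval_X, Polynomial.aeval_C]
      rw [mul_add, ← mul_assoc, mul_inv_cancel₀ hX, one_mul]
    rw [h3, hom_smul hF, ← h1, mul_zero] at h2
    have h4 : algebraMap (Polynomial K) (RatFunc K) Q = 0 := by
      rw [← h2]
      have h5 : (RatFunc.X : RatFunc K) = algebraMap (Polynomial K) (RatFunc K) Polynomial.X :=
        RatFunc.algebraMap_X.symm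
      rw [h5, Polynomial.aeval_algebraMap_apply, Polynomial.aeval_X_left_apply]
    have h6 : Q = 0 := (map_eq_zero_iff _ (RatFunc.algebraMap_injective K)).1 h4
    apply hy
    rw [← hQ0, h6, Polynomial.eval_zero]
  have hdeg : P.natDegree ≤ r := by
    rw [hP]
    have h1 := MvPolynomial.aeval_natDegree_le F hF.totalDegree_le
      (fun i => Polynomial.C (z i) + Polynomial.X * Polynomial.C (y i)) (n := 1) (fun i => by
        refine (Polynomial.natDegree_add_le _ _).trans (max_le ?_ ?_)
        · rw [Polynomial.natDegree_C]
          omega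
        · refine (Polynomial.natDegree_mul_le).trans ?_
          rw [Polynomial.natDegree_C]
          exact Nat.add_le_add_right Polynomial.natDegree_X_le 0)
    rwa [mul_one] at h1
  have hsub : (univ : Finset K).filter (fun t => MvPolynomial.eval (fun i => z i + t * y i) F = 0) ⊆
      P.roots.toFinset := by
    intro t ht
    rw [Finset.mem_filter] at ht
    rw [Multiset.mem_toFinset, Polynomial.mem_roots hPne, Polynomial.IsRoot, hPe]
    exact ht.2
  refine (Finset.card_le_card hsub).trans ((Multiset.toFinset_card_le _).trans ?_)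
  exact (Polynomial.card_roots' P).trans hdeg

/-- double counting along a direction -/
theorem card_lines {e r : ℕ} [Fintype K] [DecidableEq K] (B : Finset (Fin e → K)) (i0 : Fin e)
    (h : ∀ a : Fin e → K, ((univ : Finset K).filter
      (fun t => a + Pi.single i0 t ∈ B)).card ≤ r) :
    Fintype.card K * B.card ≤ r * Fintype.card K ^ e := by
  have h1 : ∑ a : Fin e → K, ((univ : Finset K).filter
      (fun t => a + Pi.single i0 t ∈ B)).card = Fintype.card K * B.card := by
    have e1 : ∀ a : Fin e → K, ((univ : Finset K).filter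
      (fun t => a + Pi.single i0 t ∈ B)).card = ∑ t : K, if a + Pi.single i0 t ∈ B then 1 else 0 := by
      intro a
      rw [Finset.card_filter]
    simp only [e1]
    rw [Finset.sum_comm]
    have e2 : ∀ t : K, (∑ a : Fin e → K, if a + Pi.single i0 t ∈ B then 1 else 0) = B.card := by
      intro t
      rw [← Finset.card_filter]
      apply Finset.card_bij (fun a _ => a + Pi.single i0 t)
      · intro a ha
        exact (Finset.mem_filter.1 ha).2
      · intro a _ a' _ h
        exact add_right_cancel h
      · intro b hb
        refine ⟨b - Pi.single i0 t, ?_, sub_add_cancel _ _⟩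
        rw [Finset.mem_filter, sub_add_cancel]
        exact ⟨Finset.mem_univ _, hb⟩
    simp only [e2, Finset.sum_const, Finset.card_univ, smul_eq_mul]
  rw [← h1]
  refine (Finset.sum_le_sum fun a _ => h a).trans ?_
  rw [Finset.sum_const, Finset.card_univ, Fintype.card_fun, Fintype.card_fin, smul_eq_mul, mul_comm]

end

end Pool.Agent.Q183.SKM
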