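import Pool.Agent.H684R3.Smo.Done

/-!
# Matrices with prescribed sequence of (0, 0) entries of the powers
-/

set_option autoImplicit false

namespace Pool.Agent.Q183.SKM

open Finset Matrix Pool.Agent.H884R2.Sko Pool.Agent.H684R3.Smo

variable {K : Type*} [Field K] {e : ℕ}

/-- the matrix of the shift -/
def Smat (c : Fin (e + 1) → K) : Matrix (Fin (e + 1)) (Fin (e + 1)) K :=
  Matrix.of fun i j => if i = Fin.last e then c j else if (j : ℕ) = i + 1 then 1 else 0

theorem Smat_mulVec (c a : Fin (e + 1) → K) (n : ℕ) :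
    Smat c *ᵥ (fun i : Fin (e + 1) => seq c a (n + i)) =
      fun i : Fin (e + 1) => seq c a (n + 1 + i) := by
  funext i
  rw [Matrix.mulVec, dotProduct]
  by_cases hi : i = Fin.last e
  · have h := seq_sol c a n
    subst hi
    have e1 : n + 1 + ((Fin.last e : Fin (e + 1)) : ℕ) = n + (e + 1) := by
      rw [Fin.val_last]
      ring
    rw [e1, h]
    refine Finset.sum_congr rfl fun j _ => ?_
    simp [Smat]
  · have hlt : (i : ℕ) + 1 < e + 1 := by
      have h1 := i.2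
      have h2 : (i : ℕ) ≠ e := fun h => hi (Fin.ext h)
      omega
    rw [Finset.sum_eq_single (⟨(i : ℕ) + 1, hlt⟩ : Fin (e + 1))]
    · simp only [Smat, Matrix.of_apply, if_neg hi, if_true, one_mul]
      congr 1
      ring
    · intro j _ hj
      have h3 : ¬ (j : ℕ) = i + 1 := fun h => hj (Fin.ext h)
      simp only [Smat, Matrix.of_apply, if_neg hi, if_neg h3, zero_mul]
    · intro h
      exact absurd (Finset.mem_univ _) h

theorem Smat_pow (c a : Fin (e + 1) → K) (n : ℕ) :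
    Smat c ^ n *ᵥ a = fun i : Fin (e + 1) => seq c a (n + i) := by
  induction n with
  | zero =>
    funext i
    rw [pow_zero, Matrix.one_mulVec, zero_add, seq_init]
  | succ n ih =>
    rw [pow_succ', ← Matrix.mulVec_mulVec, ih, Smat_mulVec]

theorem Smat_row (c : Fin (e + 1) → K) (i j : Fin (e + 1)) :
    (Smat c ^ (i : ℕ)) 0 j = (1 : Matrix (Fin (e + 1)) (Fin (e + 1)) K) i j := by
  have h := congrFun (Smat_pow c (Pi.single j (1 : K)) i) 0
  rw [Matrix.mulVec_single_one] at h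
  simp only [Matrix.col_apply, Fin.val_zero, add_zero] at h
  rw [h, seq_init, Matrix.one_apply, Pi.single_apply]

/-- first row `(1, 0, …, 0)`, first column `(1, a)`, block `Q` -/
def Bmat (a : Fin e → K) (Q : Matrix (Fin e) (Fin e) K) : Matrix (Fin (e + 1)) (Fin (e + 1)) K :=
  Matrix.of (Fin.cons (α := fun _ => Fin (e + 1) → K) (Fin.cons (α := fun _ => K) 1 (fun _ => 0))
    (fun i => Fin.cons (α := fun _ => K) (a i) (Q i)))

theorem Bmat_00 (a : Fin e → K) (Q : Matrix (Fin e) (Fin e) K) : Bmat a Q 0 0 = 1 := rfl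

theorem Bmat_0s (a : Fin e → K) (Q : Matrix (Fin e) (Fin e) K) (j : Fin e) :
    Bmat a Q 0 j.succ = 0 := rfl

theorem Bmat_s0 (a : Fin e → K) (Q : Matrix (Fin e) (Fin e) K) (i : Fin e) :
    Bmat a Q i.succ 0 = a i := rfl

theorem Bmat_ss (a : Fin e → K) (Q : Matrix (Fin e) (Fin e) K) (i j : Fin e) :
    Bmat a Q i.succ j.succ = Q i j := rfl

theorem Bmat_row (a : Fin e → K) (Q : Matrix (Fin e) (Fin e) K) (j : Fin (e + 1)) :
    Bmat a Q 0 j = (1 : Matrix (Fin (e + 1)) (Fin (e + 1)) K) 0 j := by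
  refine Fin.cases ?_ (fun j => ?_) j
  · rw [Bmat_00, Matrix.one_apply_eq]
  · rw [Bmat_0s, Matrix.one_apply_ne (Fin.succ_ne_zero j).symm]

theorem Bmat_col (a : Fin e → K) (Q : Matrix (Fin e) (Fin e) K) (i : Fin (e + 1)) :
    Bmat a Q i 0 = (Fin.cons 1 a : Fin (e + 1) → K) i := by
  refine Fin.cases ?_ (fun i => ?_) i
  · rw [Bmat_00, Fin.cons_zero]
  · rw [Bmat_s0, Fin.cons_succ]

theorem det_Bmat (a : Fin e → K) (Q : Matrix (Fin e) (Fin e) K) : (Bmat a Q).det = Q.det := by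
  rw [Matrix.det_succ_row_zero, Fin.sum_univ_succ, Bmat_00]
  have h1 : ∑ i : Fin e, (-1 : K) ^ ((i.succ : Fin (e + 1)) : ℕ) * Bmat a Q 0 i.succ *
      ((Bmat a Q).submatrix Fin.succ (i.succ.succAbove)).det = 0 := by
    apply Finset.sum_eq_zero
    intro i _
    rw [Bmat_0s, mul_zero, zero_mul]
  rw [h1]
  have h2 : (Bmat a Q).submatrix Fin.succ ((0 : Fin (e + 1)).succAbove) = Q := by
    ext i j
    rw [Matrix.submatrix_apply, Fin.succAbove_zero, Bmat_ss]
  rw [h2]
  simp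

/-- the conjugate of the shift -/
noncomputable def Amat (c : Fin (e + 1) → K) (a : Fin e → K) (Q : Matrix (Fin e) (Fin e) K) :
    Matrix (Fin (e + 1)) (Fin (e + 1)) K :=
  (Bmat a Q)⁻¹ * Smat c * Bmat a Q

theorem Bmat_unit {a : Fin e → K} {Q : Matrix (Fin e) (Fin e) K} (hQ : IsUnit Q.det) :
    IsUnit (Bmat a Q).det := by rwa [det_Bmat]

theorem inv_row {a : Fin e → K} {Q : Matrix (Fin e) (Fin e) K} (hQ : IsUnit Q.det)
    (j : Fin (e + 1)) : (Bmat a Q)⁻¹ 0 j = (1 : Matrix (Fin (e + 1)) (Fin (e + 1)) K) 0 j := by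
  have h := congrFun (congrFun (Matrix.mul_nonsing_inv _ (Bmat_unit (a := a) hQ)) 0) j
  rw [← h, Matrix.mul_apply, Finset.sum_eq_single 0]
  · rw [Bmat_00, one_mul]
  · intro k _ hk
    rw [Bmat_row, Matrix.one_apply_ne hk.symm, zero_mul]
  · intro h
    exact absurd (Finset.mem_univ _) h

theorem row_mul (M N : Matrix (Fin (e + 1)) (Fin (e + 1)) K)
    (h : ∀ j, M 0 j = (1 : Matrix (Fin (e + 1)) (Fin (e + 1)) K) 0 j) (j : Fin (e + 1)) :
    (M * N) 0 j = N 0 j := by
  rw [Matrix.mul_apply, Finset.sum_eq_single 0]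
  · rw [h, Matrix.one_apply_eq, one_mul]
  · intro k _ hk
    rw [h, Matrix.one_apply_ne hk.symm, zero_mul]
  · intro h
    exact absurd (Finset.mem_univ _) h

theorem Amat_pow (c : Fin (e + 1) → K) (a : Fin e → K) {Q : Matrix (Fin e) (Fin e) K}
    (hQ : IsUnit Q.det) (n : ℕ) :
    Amat c a Q ^ n = (Bmat a Q)⁻¹ * Smat c ^ n * Bmat a Q := by
  have hB := Bmat_unit (a := a) hQ
  induction n with
  | zero => rw [pow_zero, pow_zero, mul_one, Matrix.nonsing_inv_mul _ hB]
  | succ n ih =>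
    rw [pow_succ, ih, Amat, pow_succ]
    have e1 : (Bmat a Q)⁻¹ * Smat c ^ n * Bmat a Q * ((Bmat a Q)⁻¹ * Smat c * Bmat a Q) =
        (Bmat a Q)⁻¹ * Smat c ^ n * (Bmat a Q * (Bmat a Q)⁻¹) * Smat c * Bmat a Q := by
      simp only [mul_assoc]
    rw [e1, Matrix.mul_nonsing_inv _ hB, mul_one]
    simp only [mul_assoc]

theorem Amat_00 (c : Fin (e + 1) → K) (a : Fin e → K) {Q : Matrix (Fin e) (Fin e) K}
    (hQ : IsUnit Q.det) (n : ℕ) : (Amat c a Q ^ n) 0 0 = seq c (Fin.cons 1 a) n := by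
  rw [Amat_pow c a hQ, mul_assoc, row_mul _ _ (inv_row hQ), Matrix.mul_apply]
  have h := congrFun (Smat_pow c (Fin.cons 1 a : Fin (e + 1) → K) n) 0
  simp only [Fin.val_zero, add_zero] at h
  rw [← h, Matrix.mulVec, dotProduct]
  exact Finset.sum_congr rfl fun j _ => by rw [Bmat_col]

theorem Amat_inj {c c' : Fin (e + 1) → K} {a a' : Fin e → K} {Q Q' : Matrix (Fin e) (Fin e) K}
    (hQ : IsUnit Q.det) (hQ' : IsUnit Q'.det) (h : Amat c a Q = Amat c' a' Q') :
    c = c' ∧ a = a' ∧ Q = Q' := by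
  have hB := Bmat_unit (a := a) hQ
  have hB' := Bmat_unit (a := a') hQ'
  obtain ⟨T, hT⟩ : ∃ T, T = Bmat a' Q' * (Bmat a Q)⁻¹ := ⟨_, rfl⟩
  have hTrow : ∀ j, T 0 j = (1 : Matrix (Fin (e + 1)) (Fin (e + 1)) K) 0 j := by
    intro j
    rw [hT, row_mul _ _ (Bmat_row a' Q'), inv_row hQ]
  have hTS : Smat c' * T = T * Smat c := by
    unfold Amat at h
    have e1 : Bmat a' Q' * ((Bmat a Q)⁻¹ * Smat c * Bmat a Q) * (Bmat a Q)⁻¹ =
        T * Smat c * (Bmat a Q * (Bmat a Q)⁻¹) := by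
      rw [hT]
      simp only [mul_assoc]
    have e2 : Bmat a' Q' * ((Bmat a' Q')⁻¹ * Smat c' * Bmat a' Q') * (Bmat a Q)⁻¹ =
        (Bmat a' Q' * (Bmat a' Q')⁻¹) * Smat c' * T := by
      rw [hT]
      simp only [mul_assoc]
    rw [h, e2, Matrix.mul_nonsing_inv _ hB, Matrix.mul_nonsing_inv _ hB', one_mul, mul_one] at e1
    exact e1
  have hTSn : ∀ n : ℕ, Smat c' ^ n * T = T * Smat c ^ n := by
    intro n
    induction n with
    | zero => rw [pow_zero, pow_zero, one_mul, mul_one]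
    | succ n ih => rw [pow_succ', mul_assoc, ih, ← mul_assoc, hTS, mul_assoc, ← pow_succ']
  have hT1 : T = 1 := by
    ext i j
    have h1 := congrFun (congrFun (hTSn (i : ℕ)) 0) j
    rw [row_mul _ _ hTrow, Smat_row] at h1
    rw [← h1, Matrix.mul_apply, Finset.sum_eq_single i]
    · rw [Smat_row, Matrix.one_apply_eq, one_mul]
    · intro k _ hk
      rw [Smat_row, Matrix.one_apply_ne hk.symm, zero_mul]
    · intro h
      exact absurd (Finset.mem_univ _) h
  have hBB : Bmat a' Q' = Bmat a Q := by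
    have e1 : Bmat a' Q' = T * Bmat a Q := by
      rw [hT, mul_assoc, Matrix.nonsing_inv_mul _ hB, mul_one]
    rw [e1, hT1, one_mul]
  refine ⟨?_, ?_, ?_⟩
  · rw [hT1, mul_one, one_mul] at hTS
    funext j
    have e1 := congrFun (congrFun hTS (Fin.last e)) j
    simp only [Smat, Matrix.of_apply, if_true] at e1
    exact e1.symm
  · funext i
    have e1 := congrFun (congrFun hBB i.succ) 0
    rw [Bmat_s0, Bmat_s0] at e1
    exact e1.symm
  · ext i j
    have e1 := congrFun (congrFun hBB i.succ) j.succ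
    rw [Bmat_ss, Bmat_ss] at e1
    exact e1.symm

end Pool.Agent.Q183.SKM
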