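import Pool.Agent.Q183.SKM.Loc

/-!
# The local densities
-/

set_option autoImplicit false

namespace Pool.Agent.Q183.SKM

open Finset Matrix Pool.Agent.H884R2.Sko Pool.Agent.H684R3.Smo

section
variable {K : Type*} [Field K]

/-- a change of basis which takes `(x, y)` to a multiple of `(e_0, e_0)` -/
theorem exists_R {e : ℕ} (x y : Fin (e + 1) → K) (h : x ⬝ᵥ y ≠ 0) :
    ∃ R : Matrix (Fin (e + 1)) (Fin (e + 1)) K, IsUnit R.det ∧
      x ᵥ* R = Pi.single 0 (x ⬝ᵥ y) ∧ R *ᵥ (Pi.single 0 1) = y := by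
  obtain ⟨i0, hi0⟩ : ∃ i, x i ≠ 0 := by
    by_contra hcon
    push Not at hcon
    apply h
    rw [dotProduct]
    exact Finset.sum_eq_zero fun i _ => by rw [hcon i, zero_mul]
  obtain ⟨σ, hσ⟩ : ∃ σ : Equiv.Perm (Fin (e + 1)), σ = Equiv.swap 0 i0 := ⟨_, rfl⟩
  have hσ0 : σ 0 = i0 := by rw [hσ, Equiv.swap_apply_left]
  have hσne : ∀ j, j ≠ 0 → σ j ≠ i0 := by
    intro j hj hc
    rw [← hσ0] at hc
    exact hj (σ.injective hc)
  obtain ⟨R, hR⟩ : ∃ R : Matrix (Fin (e + 1)) (Fin (e + 1)) K, R = Matrix.of (fun i j =>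
    if j = 0 then y i else (if i = σ j then 1 else 0) -
      (x (σ j) / x i0) * (if i = i0 then 1 else 0)) := ⟨_, rfl⟩
  have hR0 : ∀ i, R i 0 = y i := fun i => by rw [hR, Matrix.of_apply, if_pos rfl]
  have hRj : ∀ i j, j ≠ 0 → R i j = (if i = σ j then 1 else 0) -
      (x (σ j) / x i0) * (if i = i0 then 1 else 0) := fun i j hj => by
    rw [hR, Matrix.of_apply, if_neg hj]
  have hxR : x ᵥ* R = Pi.single 0 (x ⬝ᵥ y) := by
    funext j
    rw [Matrix.vecMul, dotProduct]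
    by_cases hj : j = 0
    · subst hj
      rw [Pi.single_eq_same, dotProduct]
      exact Finset.sum_congr rfl fun i _ => by rw [hR0]
    · rw [Pi.single_eq_of_ne hj]
      have e1 : ∀ i, x i * R i j = (if i = σ j then x (σ j) else 0) -
          (if i = i0 then x (σ j) else 0) := by
        intro i
        rw [hRj i j hj]
        by_cases h1 : i = σ j
        · by_cases h2 : i = i0
          · exact absurd (h1.symm.trans h2) (hσne j hj)
          · rw [if_pos h1, if_neg h2, if_pos h1, if_neg h2, h1]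
            ring
        · by_cases h2 : i = i0
          · rw [if_neg h1, if_pos h2, if_neg h1, if_pos h2, h2]
            have e2 : x i0 * (x (σ j) / x i0) = x (σ j) := mul_div_cancel₀ _ hi0
            rw [mul_one, zero_sub, zero_sub, mul_neg, e2]
          · rw [if_neg h1, if_neg h2, if_neg h1, if_neg h2]
            ring
      simp only [e1, Finset.sum_sub_distrib, Finset.sum_ite_eq', Finset.mem_univ, if_true, sub_self]
  refine ⟨R, ?_, hxR, ?_⟩
  · rw [← Matrix.isUnit_iff_isUnit_det, ← Matrix.mulVec_injective_iff_isUnit]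
    intro z z' hzz
    have hz : R *ᵥ (z - z') = 0 := by
      rw [Matrix.mulVec_sub]
      exact sub_eq_zero.2 hzz
    obtain ⟨t, ht⟩ : ∃ t, t = z - z' := ⟨_, rfl⟩
    rw [← ht] at hz
    have h0 : t 0 = 0 := by
      have e1 : x ⬝ᵥ (R *ᵥ t) = 0 := by rw [hz, dotProduct_zero]
      rw [Matrix.dotProduct_mulVec, hxR, single_dotProduct] at e1
      exact (mul_eq_zero.1 e1).resolve_left h
    have ht0 : t = 0 := by
      funext j
      by_cases hj : j = 0
      · rw [hj, h0]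
        rfl
      · have e1 := congrFun hz (σ j)
        rw [Matrix.mulVec, dotProduct, Finset.sum_eq_single j] at e1
        · rw [hRj _ _ hj, if_pos rfl, if_neg (hσne j hj)] at e1
          simpa using e1
        · intro k _ hk
          by_cases hk0 : k = 0
          · rw [hk0, h0, mul_zero]
          · rw [hRj _ _ hk0, if_neg (fun h => hk (σ.injective h).symm), if_neg (hσne j hj)]
            ring
        · intro h
          exact absurd (Finset.mem_univ _) h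
    rw [ht] at ht0
    exact sub_eq_zero.1 ht0
  · rw [Matrix.mulVec_single_one]
    funext i
    rw [Matrix.col_apply, hR0]

theorem seq_mul {d : ℕ} (c a : Fin d → K) (t : K) (n : ℕ) :
    seq c (fun i => t * a i) n = t * seq c a n := by
  symm
  apply eq_seq c (fun i => t * a i) (fun n => t * seq c a n)
  · intro n
    simp only [seq_sol, Finset.mul_sum]
    exact Finset.sum_congr rfl fun i _ => by ring
  · intro i
    simp only [seq_init]

end

/-- the matrix with the entries `v` -/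
def mt {e : ℕ} {R : Type*} (v : Fin (e + 1) × Fin (e + 1) → R) :
    Matrix (Fin (e + 1)) (Fin (e + 1)) R := Matrix.of fun i j => v (i, j)

/-- the sequence `x^T M^n y` has period `(p - 1) / 2` and no zero term -/
def GoodM {p e : ℕ} (x y : Fin (e + 1) → ZMod p) (v : Fin (e + 1) × Fin (e + 1) → ZMod p) : Prop :=
  (∀ n, x ⬝ᵥ (mt v ^ (n + (p - 1) / 2) *ᵥ y) = x ⬝ᵥ (mt v ^ n *ᵥ y)) ∧
    ∀ n, x ⬝ᵥ (mt v ^ n *ᵥ y) ≠ 0

/-- good pairs with first initial value one -/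
theorem card_one {p e : ℕ} [Fact p.Prime] :
    Nat.card {v : Fin (e + 1) ⊕ Fin (e + 1) → ZMod p //
      GoodP (fun i => v (Sum.inl i)) (fun i => v (Sum.inr i))} ≤
    (p - 1) * Nat.card {w : (Fin (e + 1) → ZMod p) × (Fin e → ZMod p) //
      GoodP w.1 (Fin.cons 1 w.2)} := by
  have hu : Nat.card (ZMod p)ˣ = p - 1 := by
    rw [Nat.card_eq_fintype_card, ZMod.card_units]
  rw [← hu, ← Nat.card_prod]
  have hne : ∀ v : {v : Fin (e + 1) ⊕ Fin (e + 1) → ZMod p //
      GoodP (fun i => v (Sum.inl i)) (fun i => v (Sum.inr i))}, v.1 (Sum.inr 0) ≠ 0 := by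
    intro v
    have h := v.2.2 0
    have h2 := seq_init (fun i => v.1 (Sum.inl i)) (fun i => v.1 (Sum.inr i)) 0
    simp only [Fin.val_zero] at h2
    rwa [h2] at h
  have hcons : ∀ v : {v : Fin (e + 1) ⊕ Fin (e + 1) → ZMod p //
      GoodP (fun i => v (Sum.inl i)) (fun i => v (Sum.inr i))},
      (Fin.cons 1 (fun i : Fin e => (v.1 (Sum.inr 0))⁻¹ * v.1 (Sum.inr i.succ)) :
        Fin (e + 1) → ZMod p) = fun i => (v.1 (Sum.inr 0))⁻¹ * v.1 (Sum.inr i) := by
    intro v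
    funext i
    refine Fin.cases ?_ (fun i => ?_) i
    · rw [Fin.cons_zero, inv_mul_cancel₀ (hne v)]
    · rw [Fin.cons_succ]
  apply Nat.card_le_card_of_injective (fun v => (Units.mk0 _ (hne v),
    ⟨(fun i => v.1 (Sum.inl i), fun i : Fin e => (v.1 (Sum.inr 0))⁻¹ * v.1 (Sum.inr i.succ)), by
      simp only
      rw [hcons v]
      refine ⟨fun n => ?_, fun n => ?_⟩
      · rw [seq_mul, seq_mul, v.2.1 n]
      · rw [seq_mul]
        exact mul_ne_zero (inv_ne_zero (hne v)) (v.2.2 n)⟩))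
  intro v v' h
  simp only [Prod.mk.injEq, Subtype.mk.injEq] at h
  obtain ⟨h1, h2, h3⟩ := h
  have h1' : v.1 (Sum.inr 0) = v'.1 (Sum.inr 0) := congrArg Units.val h1
  apply Subtype.ext
  funext s
  rcases s with i | i
  · exact congrFun h2 i
  · refine Fin.cases ?_ (fun i => ?_) i
    · exact h1'
    · have h4 := congrFun h3 i
      rw [← h1'] at h4
      exact mul_left_cancel₀ (inv_ne_zero (hne v)) h4

theorem card_GL_ge {p e : ℕ} [Fact p.Prime] :
    ((p : ℝ) ^ (e * e)) / 2 ^ e ≤ (Nat.card (GL (Fin e) (ZMod p)) : ℝ) := by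
  have hp2 : 2 ≤ p := (Fact.out : p.Prime).two_le
  rw [Matrix.card_GL_field, ZMod.card]
  push_cast
  have h1 : ∀ i : Fin e, (p : ℝ) ^ e / 2 ≤ ((p ^ e - p ^ (i : ℕ) : ℕ) : ℝ) := by
    intro i
    have hle : p ^ (i : ℕ) ≤ p ^ e := Nat.pow_le_pow_right (by omega) i.2.le
    rw [Nat.cast_sub hle]
    push_cast
    have h2 : 2 * (p : ℝ) ^ (i : ℕ) ≤ (p : ℝ) ^ e := by
      have h3 : p ^ ((i : ℕ) + 1) ≤ p ^ e := Nat.pow_le_pow_right (by omega) i.2
      have h4 : 2 * p ^ (i : ℕ) ≤ p ^ e := by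
        refine le_trans ?_ h3
        rw [pow_succ, mul_comm]
        exact Nat.mul_le_mul_left _ hp2
      exact_mod_cast h4
    linarith
  have h5 : ∏ _i : Fin e, ((p : ℝ) ^ e / 2) ≤ ∏ i : Fin e, ((p ^ e - p ^ (i : ℕ) : ℕ) : ℝ) :=
    Finset.prod_le_prod (fun i _ => by positivity) fun i _ => h1 i
  rw [Finset.prod_const, Finset.card_univ, Fintype.card_fin, div_pow, ← pow_mul] at h5
  refine h5.trans (le_of_eq ?_)
  rfl

theorem card_mat {p e : ℕ} [Fact p.Prime] (x y : Fin (e + 1) → ZMod p) (hxy : x ⬝ᵥ y ≠ 0) :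
    Nat.card {w : (Fin (e + 1) → ZMod p) × (Fin e → ZMod p) // GoodP w.1 (Fin.cons 1 w.2)} *
      Nat.card (GL (Fin e) (ZMod p)) ≤
    Nat.card {v : Fin (e + 1) × Fin (e + 1) → ZMod p // GoodM x y v} := by
  obtain ⟨R, hR, hxR, hRy⟩ := exists_R x y hxy
  rw [← Nat.card_prod]
  have hdet : ∀ Q : GL (Fin e) (ZMod p), IsUnit (Q : Matrix (Fin e) (Fin e) (ZMod p)).det :=
    fun Q => (Matrix.isUnit_iff_isUnit_det _).1 Q.isUnit
  have hRy' : R⁻¹ *ᵥ y = Pi.single 0 1 := by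
    rw [← hRy, Matrix.mulVec_mulVec, Matrix.nonsing_inv_mul _ hR, Matrix.one_mulVec]
  have hpow : ∀ (N : Matrix (Fin (e + 1)) (Fin (e + 1)) (ZMod p)) (n : ℕ),
      (R * N * R⁻¹) ^ n = R * N ^ n * R⁻¹ := by
    intro N n
    induction n with
    | zero => rw [pow_zero, pow_zero, mul_one, Matrix.mul_nonsing_inv _ hR]
    | succ n ih =>
      rw [pow_succ, ih, pow_succ]
      have e1 : R * N ^ n * R⁻¹ * (R * N * R⁻¹) = R * N ^ n * (R⁻¹ * R) * N * R⁻¹ := by
        simp only [mul_assoc]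
      rw [e1, Matrix.nonsing_inv_mul _ hR, mul_one]
      simp only [mul_assoc]
  have hval : ∀ (N : Matrix (Fin (e + 1)) (Fin (e + 1)) (ZMod p)) (n : ℕ),
      x ⬝ᵥ ((R * N * R⁻¹) ^ n *ᵥ y) = x ⬝ᵥ y * (N ^ n) 0 0 := by
    intro N n
    rw [hpow, ← Matrix.mulVec_mulVec, hRy', ← Matrix.mulVec_mulVec, Matrix.dotProduct_mulVec, hxR,
      single_dotProduct, Matrix.mulVec_single_one, Matrix.col_apply]
  apply Nat.card_le_card_of_injective (fun z : {w : (Fin (e + 1) → ZMod p) × (Fin e → ZMod p) //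
      GoodP w.1 (Fin.cons 1 w.2)} × GL (Fin e) (ZMod p) =>
    (⟨fun ij => (R * Amat z.1.1.1 z.1.1.2 (z.2 : Matrix (Fin e) (Fin e) (ZMod p)) * R⁻¹) ij.1 ij.2,
      by
        have hm : mt (fun ij : Fin (e + 1) × Fin (e + 1) =>
            (R * Amat z.1.1.1 z.1.1.2 (z.2 : Matrix (Fin e) (Fin e) (ZMod p)) * R⁻¹) ij.1 ij.2) =
            R * Amat z.1.1.1 z.1.1.2 (z.2 : Matrix (Fin e) (Fin e) (ZMod p)) * R⁻¹ := by
          ext i j
          rfl
        unfold GoodM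
        rw [hm]
        refine ⟨fun n => ?_, fun n => ?_⟩
        · rw [hval, hval, Amat_00 _ _ (hdet _), Amat_00 _ _ (hdet _), z.1.2.1 n]
        · rw [hval, Amat_00 _ _ (hdet _)]
          exact mul_ne_zero hxy (z.1.2.2 n)⟩ :
      {v : Fin (e + 1) × Fin (e + 1) → ZMod p // GoodM x y v}))
  intro z z' h
  simp only [Subtype.mk.injEq] at h
  have h1 : R * Amat z.1.1.1 z.1.1.2 (z.2 : Matrix (Fin e) (Fin e) (ZMod p)) * R⁻¹ =
      R * Amat z'.1.1.1 z'.1.1.2 (z'.2 : Matrix (Fin e) (Fin e) (ZMod p)) * R⁻¹ := by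
    ext i j
    exact congrFun h (i, j)
  have h2 : Amat z.1.1.1 z.1.1.2 (z.2 : Matrix (Fin e) (Fin e) (ZMod p)) =
      Amat z'.1.1.1 z'.1.1.2 (z'.2 : Matrix (Fin e) (Fin e) (ZMod p)) := by
    have e1 := congrArg (fun N => R⁻¹ * N * R) h1
    have e2 : ∀ N : Matrix (Fin (e + 1)) (Fin (e + 1)) (ZMod p), R⁻¹ * (R * N * R⁻¹) * R = N := by
      intro N
      have e3 : R⁻¹ * (R * N * R⁻¹) * R = (R⁻¹ * R) * N * (R⁻¹ * R) := by simp only [mul_assoc]
      rw [e3, Matrix.nonsing_inv_mul _ hR, one_mul, mul_one]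
    rwa [e2, e2] at e1
  obtain ⟨h3, h4, h5⟩ := Amat_inj (hdet _) (hdet _) h2
  apply Prod.ext
  · apply Subtype.ext
    exact Prod.ext h3 h4
  · exact Units.ext h5

/-- **Local densities.** -/
theorem loc (e : ℕ) : ∃ κ : ℝ, 0 < κ ∧ ∀ p : ℕ, p.Prime → 4 * (e + 1) ≤ p →
    ∀ x y : Fin (e + 1) → ZMod p, x ⬝ᵥ y ≠ 0 →
      κ * (p : ℝ) ^ (Fintype.card (Fin (e + 1) × Fin (e + 1))) ≤
        (Nat.card {v : Fin (e + 1) × Fin (e + 1) → ZMod p // GoodM x y v} : ℝ) := by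
  obtain ⟨κ, hκ, h⟩ := t6 (e + 1) (by omega)
  refine ⟨κ / 2 ^ e, by positivity, fun p hp h4 x y hxy => ?_⟩
  have : Fact p.Prime := ⟨hp⟩
  have h1 := h p hp h4
  have h2 := card_one (p := p) (e := e)
  have h3 := card_GL_ge (p := p) (e := e)
  have h5 := card_mat x y hxy
  obtain ⟨N, hN⟩ : ∃ N : ℕ, N = Nat.card {w : (Fin (e + 1) → ZMod p) × (Fin e → ZMod p) //
      GoodP w.1 (Fin.cons 1 w.2)} := ⟨_, rfl⟩
  rw [← hN] at h2 h5
  have hp0 : (0 : ℝ) < p := by exact_mod_cast hp.pos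
  have h6 : κ * (p : ℝ) ^ (2 * e + 2) ≤ p * N := by
    have e1 : Fintype.card (Fin (e + 1) ⊕ Fin (e + 1)) = 2 * e + 2 := by
      rw [Fintype.card_sum, Fintype.card_fin]
      ring
    rw [e1] at h1
    refine h1.trans ?_
    have e2 : Nat.card {v : Fin (e + 1) ⊕ Fin (e + 1) → ZMod p //
      GoodP (fun i => v (Sum.inl i)) (fun i => v (Sum.inr i))} ≤ p * N :=
      h2.trans (Nat.mul_le_mul_right _ (Nat.sub_le _ _))
    exact_mod_cast e2
  have h7 : κ * (p : ℝ) ^ (2 * e + 1) ≤ N := by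
    have e1 : κ * (p : ℝ) ^ (2 * e + 2) = p * (κ * (p : ℝ) ^ (2 * e + 1)) := by ring
    rw [e1] at h6
    exact le_of_mul_le_mul_left h6 hp0
  have h8 : ((N : ℝ) * (Nat.card (GL (Fin e) (ZMod p)) : ℝ)) ≤
      (Nat.card {v : Fin (e + 1) × Fin (e + 1) → ZMod p // GoodM x y v} : ℝ) := by
    exact_mod_cast h5
  refine le_trans ?_ h8
  have h9 : (κ * (p : ℝ) ^ (2 * e + 1)) * ((p : ℝ) ^ (e * e) / 2 ^ e) ≤
      (N : ℝ) * (Nat.card (GL (Fin e) (ZMod p)) : ℝ) :=
    mul_le_mul h7 h3 (by positivity) (Nat.cast_nonneg _)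
  refine le_trans (le_of_eq ?_) h9
  have e3 : Fintype.card (Fin (e + 1) × Fin (e + 1)) = (2 * e + 1) + e * e := by
    rw [Fintype.card_prod, Fintype.card_fin]
    ring
  rw [e3, pow_add]
  ring

end Pool.Agent.Q183.SKM
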