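import Pool.Agent.Q183.SKM.Hom

/-!
# Local densities for forms
-/

set_option autoImplicit false

namespace Pool.Agent.Q183.SKM

open Finset Matrix Pool.Agent.H884R2.Sko Pool.Agent.TH838.SK

section
variable {K : Type} [Field K] {e : ℕ}

theorem Smat_T (T : ℕ) (S : Finset K) (hS : S.card = e + 1) (hST : ∀ a ∈ S, a ^ T = 1) :
    Smat (coef (e + 1) S) ^ T = 1 := by
  ext i j
  have h := congrFun (Smat_pow (coef (e + 1) S) (Pi.single j (1 : K)) T) i
  rw [Matrix.mulVec_single_one] at h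
  simp only [Matrix.col_apply] at h
  rw [h, seq_mod (e + 1) T S hS hST, Nat.add_mod_left, ← seq_mod (e + 1) T S hS hST, seq_init,
    Matrix.one_apply, Pi.single_apply]

theorem Smat_row_ne {c : Fin (e + 1) → K} {T : ℕ} (hT : 0 < T) (h : Smat c ^ T = 1) (n : ℕ) :
    (Smat c ^ n) 0 ≠ 0 := by
  intro h0
  have h1 : (Smat c ^ n).det = 0 := Matrix.det_eq_zero_of_row_eq_zero 0 fun j => congrFun h0 j
  rw [Matrix.det_pow] at h1
  have h2 : (Smat c).det ^ T = 1 := by rw [← Matrix.det_pow, h, Matrix.det_one]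
  have h3 : (Smat c).det = 0 := by
    rcases Nat.eq_zero_or_pos n with h4 | h4
    · subst h4
      simp at h1
    · exact (pow_eq_zero_iff (by omega)).1 h1
  rw [h3, zero_pow (by omega)] at h2
  exact zero_ne_one h2

theorem Amat_T {c : Fin (e + 1) → K} {T : ℕ} (h : Smat c ^ T = 1) (a : Fin e → K)
    {Q : Matrix (Fin e) (Fin e) K} (hQ : IsUnit Q.det) : Amat c a Q ^ T = 1 := by
  rw [Amat_pow c a hQ, h, mul_one, Matrix.nonsing_inv_mul _ (Bmat_unit hQ)]

theorem Amat_row (c : Fin (e + 1) → K) (a : Fin e → K) {Q : Matrix (Fin e) (Fin e) K}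
    (hQ : IsUnit Q.det) (n : ℕ) (j : Fin (e + 1)) :
    (Amat c a Q ^ n) 0 j = ∑ i, (Smat c ^ n) 0 i * Bmat a Q i j := by
  rw [Amat_pow c a hQ, mul_assoc, row_mul _ _ (inv_row hQ), Matrix.mul_apply]

theorem Amat_row_add (c : Fin (e + 1) → K) (a : Fin e → K) {Q : Matrix (Fin e) (Fin e) K}
    (hQ : IsUnit Q.det) (n : ℕ) (i0 : Fin e) (t : K) :
    (Amat c (a + Pi.single i0 t) Q ^ n) 0 = (Amat c a Q ^ n) 0 +
      t • ((Smat c ^ n) 0 i0.succ • (Pi.single 0 1 : Fin (e + 1) → K)) := by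
  funext j
  rw [Pi.add_apply, Pi.smul_apply, Pi.smul_apply, Amat_row c _ hQ, Amat_row c _ hQ]
  refine Fin.cases ?_ (fun j => ?_) j
  · simp only [Bmat_col, Pi.single_eq_same, smul_eq_mul, mul_one]
    rw [Fin.sum_univ_succ, Fin.sum_univ_succ]
    simp only [Fin.cons_zero, Fin.cons_succ, Pi.add_apply, mul_add, Finset.sum_add_distrib]
    have e1 : ∑ x : Fin e, (Smat c ^ n) 0 x.succ * (Pi.single i0 t : Fin e → K) x =
        (Smat c ^ n) 0 i0.succ * t := by
      rw [Finset.sum_eq_single i0]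
      · rw [Pi.single_eq_same]
      · intro b _ hb
        rw [Pi.single_eq_of_ne hb, mul_zero]
      · intro h
        exact absurd (Finset.mem_univ _) h
    rw [e1]
    ring
  · rw [Pi.single_eq_of_ne (Fin.succ_ne_zero j), smul_zero, smul_zero, add_zero]
    refine Finset.sum_congr rfl fun i _ => ?_
    refine Fin.cases ?_ (fun i => ?_) i
    · rw [Bmat_0s, Bmat_0s]
    · rw [Bmat_ss, Bmat_ss]

theorem eval_smul {r : ℕ} {F : MvPolynomial (Fin (e + 1)) K} (hF : F.IsHomogeneous r) (t : K)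
    (y : Fin (e + 1) → K) :
    MvPolynomial.eval (t • y) F = t ^ r * MvPolynomial.eval y F := hom_smul (L := K) hF t y

/-- the bad `a` for one exponent -/
theorem card_bad_n [Fintype K] [DecidableEq K] {r T : ℕ} {F : MvPolynomial (Fin (e + 1)) K}
    (hF : F.IsHomogeneous r) {c : Fin (e + 1) → K} (hT : 0 < T) (hc : Smat c ^ T = 1)
    {Q : Matrix (Fin e) (Fin e) K} (hQ : IsUnit Q.det) (R : Matrix (Fin (e + 1)) (Fin (e + 1)) K)
    (hy : MvPolynomial.eval (R *ᵥ (Pi.single 0 1)) F ≠ 0) (n : ℕ) :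
    Fintype.card K * ((univ : Finset (Fin e → K)).filter
      (fun a => MvPolynomial.eval (R *ᵥ ((Amat c a Q ^ n) 0)) F = 0)).card ≤
      r * Fintype.card K ^ e := by
  by_cases h : ∃ i0 : Fin e, (Smat c ^ n) 0 i0.succ ≠ 0
  · obtain ⟨i0, hi0⟩ := h
    apply card_lines _ i0
    intro a
    have h1 : ∀ t : K, (a + Pi.single i0 t ∈ ((univ : Finset (Fin e → K)).filter
        (fun a => MvPolynomial.eval (R *ᵥ ((Amat c a Q ^ n) 0)) F = 0))) ↔
        MvPolynomial.eval (fun i => (R *ᵥ ((Amat c a Q ^ n) 0)) i + t *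
          ((Smat c ^ n) 0 i0.succ • (R *ᵥ (Pi.single 0 1))) i) F = 0 := by
      intro t
      rw [Finset.mem_filter, Amat_row_add c a hQ, Matrix.mulVec_add, Matrix.mulVec_smul,
        Matrix.mulVec_smul]
      constructor
      · intro h2
        exact h2.2
      · intro h2
        exact ⟨Finset.mem_univ _, h2⟩
    simp only [h1]
    apply line_roots hF
    rw [eval_smul hF]
    exact mul_ne_zero (pow_ne_zero _ hi0) hy
  · push Not at h
    have h2 : (Smat c ^ n) 0 0 ≠ 0 := by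
      intro h0
      apply Smat_row_ne hT hc n
      funext j
      refine Fin.cases ?_ (fun j => ?_) j
      · exact h0
      · exact h j
    have h3 : ∀ a : Fin e → K, (Amat c a Q ^ n) 0 =
        (Smat c ^ n) 0 0 • (Pi.single 0 1 : Fin (e + 1) → K) := by
      intro a
      funext j
      rw [Amat_row c a hQ, Fin.sum_univ_succ, Pi.smul_apply]
      have h4 : ∑ i : Fin e, (Smat c ^ n) 0 i.succ * Bmat a Q i.succ j = 0 := by
        apply Finset.sum_eq_zero
        intro i _
        rw [h i, zero_mul]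
      rw [h4, add_zero, Bmat_row, smul_eq_mul, Matrix.one_apply, Pi.single_apply]
      congr 1
      simp only [eq_comm]
    have h5 : ((univ : Finset (Fin e → K)).filter
      (fun a => MvPolynomial.eval (R *ᵥ ((Amat c a Q ^ n) 0)) F = 0)) = ∅ := by
      apply Finset.filter_eq_empty_iff.2
      intro a _
      rw [h3 a, Matrix.mulVec_smul, eval_smul hF]
      exact mul_ne_zero (pow_ne_zero _ h2) hy
    rw [h5, Finset.card_empty, mul_zero]
    exact Nat.zero_le _

open scoped Classical in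
/-- most `a` are good -/
theorem card_good_a [Fintype K] {r T : ℕ} {F : MvPolynomial (Fin (e + 1)) K}
    (hF : F.IsHomogeneous r) {c : Fin (e + 1) → K} (hT : 0 < T) (hc : Smat c ^ T = 1)
    {Q : Matrix (Fin e) (Fin e) K} (hQ : IsUnit Q.det) (R : Matrix (Fin (e + 1)) (Fin (e + 1)) K)
    (hy : MvPolynomial.eval (R *ᵥ (Pi.single 0 1)) F ≠ 0) (hk : 2 * (r * T) ≤ Fintype.card K) :
    Fintype.card K ^ e ≤ 2 * ((univ : Finset (Fin e → K)).filter
      (fun a => ¬ ∃ n, MvPolynomial.eval (R *ᵥ ((Amat c a Q ^ n) 0)) F = 0)).card := by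
  obtain ⟨q, hq⟩ : ∃ q, q = Fintype.card K := ⟨_, rfl⟩
  have hq0 : 0 < q := by rw [hq]; exact Fintype.card_pos
  rw [← hq] at hk ⊢
  obtain ⟨B, hB⟩ : ∃ B : Finset (Fin e → K), B = (univ : Finset (Fin e → K)).filter
      (fun a => ∃ n, MvPolynomial.eval (R *ᵥ ((Amat c a Q ^ n) 0)) F = 0) := ⟨_, rfl⟩
  have h1 : B.card + ((univ : Finset (Fin e → K)).filter
      (fun a => ¬ ∃ n, MvPolynomial.eval (R *ᵥ ((Amat c a Q ^ n) 0)) F = 0)).card = q ^ e := by
    rw [hB, Finset.card_filter_add_card_filter_not, Finset.card_univ, Fintype.card_fun,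
      Fintype.card_fin, ← hq]
  have h2 : B.card ≤ ∑ n ∈ range T, ((univ : Finset (Fin e → K)).filter
      (fun a => MvPolynomial.eval (R *ᵥ ((Amat c a Q ^ n) 0)) F = 0)).card := by
    refine le_trans (Finset.card_le_card ?_) Finset.card_biUnion_le
    intro a ha
    rw [hB, Finset.mem_filter] at ha
    obtain ⟨_, n, hn⟩ := ha
    rw [Finset.mem_biUnion]
    refine ⟨n % T, Finset.mem_range.2 (Nat.mod_lt _ hT), ?_⟩
    rw [Finset.mem_filter]
    refine ⟨Finset.mem_univ _, ?_⟩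
    have h3 : Amat c a Q ^ n = Amat c a Q ^ (n % T) := by
      conv_lhs => rw [← Nat.div_add_mod n T, pow_add, pow_mul, Amat_T hc a hQ, one_pow, one_mul]
    rw [← h3]
    exact hn
  have h4 : q * B.card ≤ T * (r * q ^ e) := by
    refine (Nat.mul_le_mul_left _ h2).trans ?_
    rw [Finset.mul_sum]
    refine (Finset.sum_le_sum fun n _ => ?_).trans (le_of_eq ?_) (b := ∑ n ∈ range T, r * q ^ e)
    · rw [hq]
      convert card_bad_n hF hT hc hQ R hy n
    · rw [Finset.sum_const, Finset.card_range, smul_eq_mul]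
  have h5 : 2 * B.card ≤ q ^ e := by
    have h6 : q * (2 * B.card) ≤ q * q ^ e := by
      calc q * (2 * B.card) = 2 * (q * B.card) := by ring
        _ ≤ 2 * (T * (r * q ^ e)) := Nat.mul_le_mul_left _ h4
        _ = 2 * (r * T) * q ^ e := by ring
        _ ≤ q * q ^ e := Nat.mul_le_mul_right _ hk
    exact Nat.le_of_mul_le_mul_left h6 hq0
  omega

end

end Pool.Agent.Q183.SKM
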