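import Pool.Agent.Q183.SKM.Loc2

/-!
# The sieve, uniform in the set of primes and in the sets of residues
-/

set_option autoImplicit false

namespace Pool.Agent.Q183.SKM

open Filter Pool.Agent.H684R3.Smo Pool.Agent.H884R2.Sko

/-- The asymptotic form of the counting bound, uniform in the sets `P` and `G p` (compare
`Pool.Agent.TH838.SK.t5u`). -/
theorem t5v (ι : Type) [Fintype ι] [DecidableEq ι] (κ θ A : ℝ)
    (hκ : 0 < κ) (hθ : 0 < θ) (hA : 0 < A) (hAθ : 1 < A * θ) :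
    ∃ δ : ℝ, 0 < δ ∧ ∃ H₀ : ℕ, ∀ H : ℕ, H₀ ≤ H → ∀ (P : ℕ → Prop) (G : ∀ p : ℕ, Set (ι → ZMod p)),
      (∀ p, P p → p.Prime ∧ κ * (p : ℝ) ^ (Fintype.card ι) ≤ (Nat.card (G p) : ℝ)) →
      (∀ y : ℕ, Real.log H ^ A ≤ 4 * (y : ℝ) →
        (y : ℝ) ^ θ ≤ (Nat.card {p : ℕ // P p ∧ p ≤ y} : ℝ)) → ∀ b : ι → ℤ,
      (Nat.card {v : ι → ℤ // v ∈ bx b H ∧ ∀ p, P p → (p : ℝ) ≤ Real.log H ^ A →
        (fun i => (v i : ZMod p)) ∉ G p} : ℝ) ≤
        (2 * (H : ℝ) + 1) ^ (Fintype.card ι) * (H : ℝ) ^ (-δ) := by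
  have h4 : T4 := t4 (t3 t1 t2)
  set ε : ℝ := (A * θ - 1) / 2 with hε
  have hε0 : 0 < ε := by rw [hε]; linarith
  set η : ℝ := 1 / (16 * A) with hη
  have hη0 : 0 < η := by positivity
  set δ : ℝ := min (ε * η / 8) (1 / 2) with hδ
  have hδ0 : 0 < δ := lt_min (by positivity) (by norm_num)
  have hlogH : Tendsto (fun H : ℕ => Real.log (H : ℝ)) atTop atTop :=
    Real.tendsto_log_atTop.comp tendsto_natCast_atTop_atTop
  have hev := hlogH.eventually (t5_ev 4 κ θ A ε η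
    ((Fintype.card ι : ℝ) * 2 ^ (Fintype.card ι) * 2) hA hε0 hη0)
  obtain ⟨H₀, hH₀⟩ := eventually_atTop.1 hev
  refine ⟨δ, hδ0, H₀, fun H hH P G hP hcount b => ?_⟩
  obtain ⟨c1, c2, c3, c4, c5, c6, c7, c8, c9⟩ := hH₀ H hH
  have ht0 : 0 < Real.log (H : ℝ) := lt_of_lt_of_le (Real.exp_pos 1) c1
  have hHpos : (0 : ℝ) < H := by
    rcases Nat.eq_zero_or_pos H with h | h
    · subst h; simp at ht0
    · exact_mod_cast h
  obtain ⟨y₀, hy₀⟩ : ∃ y₀ : ℕ, y₀ + 1 = ⌊Real.log (H : ℝ) ^ A / 2⌋₊ := by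
    have h1 : 1 ≤ ⌊Real.log (H : ℝ) ^ A / 2⌋₊ := by
      apply Nat.le_floor
      push_cast at c2 ⊢
      linarith
    exact ⟨⌊Real.log (H : ℝ) ^ A / 2⌋₊ - 1, by omega⟩
  have hy1 : (y₀ : ℝ) + 1 ≤ Real.log (H : ℝ) ^ A / 2 := by
    have h1 : ((y₀ + 1 : ℕ) : ℝ) ≤ Real.log (H : ℝ) ^ A / 2 := by
      rw [hy₀]
      exact Nat.floor_le (by positivity)
    push_cast at h1
    exact h1
  have hy2 : Real.log (H : ℝ) ^ A / 2 < (y₀ : ℝ) + 2 := by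
    have h1 : Real.log (H : ℝ) ^ A / 2 < ((y₀ + 1 : ℕ) : ℝ) + 1 := by
      rw [hy₀]
      exact Nat.lt_floor_add_one _
    push_cast at h1
    linarith
  have c2' : 2 * ((y₀ : ℝ) + 1) ≤ Real.log (H : ℝ) ^ A := by linarith
  have hN : ∀ y : ℕ, y₀ ≤ y → (y : ℝ) ^ θ ≤ (Nat.card {p : ℕ // P p ∧ p ≤ y} : ℝ) := by
    intro y hy
    apply hcount
    have h1 : (y₀ : ℝ) ≤ y := by exact_mod_cast hy
    push_cast at c2
    linarith
  obtain ⟨m, K, y, hyt, hmK, hK, p1, p2, p3⟩ := t5_param y₀ κ θ A ε η δ (Real.log H)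
    (fun y => Nat.card {p : ℕ // P p ∧ p ≤ y}) hκ hθ hA hε0 (by rw [hε]; ring) hη
    (min_le_left _ _) hδ0 hN c1 c2' c3 c4 c5 c6 c7 c8
  have hfin : Finite {p : ℕ // P p ∧ p ≤ y} :=
    (Set.Finite.subset (Set.finite_le_nat y) (fun p hp => hp.2) :
      ({p : ℕ | P p ∧ p ≤ y}).Finite).to_subtype
  obtain ⟨f⟩ : Nonempty (Fin m × Fin K ↪ {p : ℕ // P p ∧ p ≤ y}) := by
    have := Fintype.ofFinite {p : ℕ // P p ∧ p ≤ y}
    refine Function.Embedding.nonempty_of_card_le ?_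
    rw [Fintype.card_prod, Fintype.card_fin, Fintype.card_fin, ← Nat.card_eq_fintype_card]
    exact hmK
  have hexp : Real.exp (Real.log (H : ℝ)) = H := Real.exp_log hHpos
  have hyH : y ^ (2 * m) ≤ 2 * H + 1 := by
    have h1 : (y : ℝ) ^ (2 * m) ≤ 2 * H + 1 := by
      refine le_trans p1 ?_
      have h2 : Real.exp (Real.log (H : ℝ) / 8) ≤ Real.exp (Real.log (H : ℝ)) :=
        Real.exp_le_exp.2 (by linarith)
      rw [hexp] at h2
      linarith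
    exact_mod_cast h1
  have hmain := h4 ι G κ hκ m K y H (fun x => ((f x : {p : ℕ // P p ∧ p ≤ y}) : ℕ))
    (Subtype.val_injective.comp f.injective)
    (fun x => ⟨(hP _ (f x).2.1).1, (f x).2.2, (hP _ (f x).2.1).2⟩) hyH b
  have hfin2 : Finite {v : ι → ℤ // v ∈ bx b H ∧
      ∀ x : Fin m × Fin K, (fun i => (v i : ZMod ((f x : {p : ℕ // P p ∧ p ≤ y}) : ℕ))) ∉
        G ((f x : {p : ℕ // P p ∧ p ≤ y}) : ℕ)} :=
    Finite.of_injective (fun v => (⟨v.1, v.2.1⟩ : {v // v ∈ bx b H})) (by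
      intro v w hvw
      exact Subtype.ext (congrArg (fun z : {v // v ∈ bx b H} => z.1) hvw))
  have hcard : (Nat.card {v : ι → ℤ // v ∈ bx b H ∧ ∀ p, P p → (p : ℝ) ≤ Real.log H ^ A →
      (fun i => (v i : ZMod p)) ∉ G p} : ℝ) ≤
      (Nat.card {v : ι → ℤ // v ∈ bx b H ∧
      ∀ x : Fin m × Fin K, (fun i => (v i : ZMod ((f x : {p : ℕ // P p ∧ p ≤ y}) : ℕ))) ∉
        G ((f x : {p : ℕ // P p ∧ p ≤ y}) : ℕ)} : ℝ) := by
    have : Nat.card {v : ι → ℤ // v ∈ bx b H ∧ ∀ p, P p → (p : ℝ) ≤ Real.log H ^ A →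
      (fun i => (v i : ZMod p)) ∉ G p} ≤ Nat.card {v : ι → ℤ // v ∈ bx b H ∧
      ∀ x : Fin m × Fin K, (fun i => (v i : ZMod ((f x : {p : ℕ // P p ∧ p ≤ y}) : ℕ))) ∉
        G ((f x : {p : ℕ // P p ∧ p ≤ y}) : ℕ)} := by
      refine Nat.card_le_card_of_injective (fun v => ⟨v.1, v.2.1, fun x => v.2.2 _ (f x).2.1
        (le_trans (by exact_mod_cast (f x).2.2) hyt)⟩) ?_
      intro v w hvw
      have h5 := Subtype.ext_iff.1 hvw
      exact Subtype.ext h5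
    exact_mod_cast this
  refine t5_final (Fintype.card ι) m K y _ (2 * (H : ℝ) + 1) κ δ (Real.log H) H hκ hK
    (min_le_right _ _) ht0 hexp.symm (by linarith) c9 p1 p2 p3 ?_
  exact le_trans (mul_le_mul_of_nonneg_right hcard (by positivity)) hmain

/-- the number of prime divisors -/
theorem omega_le (s : ℕ) (hs : s ≠ 0) : (s.primeFactors.card : ℝ) * Real.log 2 ≤ Real.log s := by
  have h1 : 2 ^ s.primeFactors.card ≤ s := by
    have h2 : 2 ^ s.primeFactors.card ≤ ∏ p ∈ s.primeFactors, p :=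
      Finset.pow_card_le_prod _ _ _ fun p hp => (Nat.prime_of_mem_primeFactors hp).two_le
    exact h2.trans (Nat.le_of_dvd (Nat.pos_of_ne_zero hs) (Nat.prod_primeFactors_dvd s))
  have h3 : ((2 : ℝ)) ^ s.primeFactors.card ≤ s := by exact_mod_cast h1
  have h4 := Real.log_le_log (by positivity) h3
  rwa [Real.log_pow] at h4

/-- many primes not dividing a given number -/
theorem primes_not (A : ℝ) (hA : 1 < A) (p₀ : ℕ) : ∃ θ : ℝ, 0 < θ ∧ 1 < A * θ ∧ ∃ H₀ : ℕ,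
    ∀ H : ℕ, H₀ ≤ H → ∀ s : ℕ, s ≠ 0 → s ≤ H ^ 3 → ∀ y : ℕ, Real.log H ^ A ≤ 4 * (y : ℝ) →
      (y : ℝ) ^ θ ≤ (Nat.card {p : ℕ // (p.Prime ∧ p₀ ≤ p ∧ ¬ p ∣ s) ∧ p ≤ y} : ℝ) := by
  obtain ⟨a, ha⟩ : ∃ a : ℝ, a = 1 / A := ⟨_, rfl⟩
  have hA0 : 0 < A := by linarith
  have ha0 : 0 < a := by rw [ha]; positivity
  have ha1 : a < 1 := by rw [ha, div_lt_one hA0]; exact hA
  have haA : A * a = 1 := by rw [ha]; field_simp
  obtain ⟨θ, hθ⟩ : ∃ θ : ℝ, θ = (1 + a) / 2 := ⟨_, rfl⟩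
  obtain ⟨θ', hθ'⟩ : ∃ θ' : ℝ, θ' = (1 + θ) / 2 := ⟨_, rfl⟩
  have haθ : a < θ := by rw [hθ]; linarith
  have hθ1 : θ < 1 := by rw [hθ]; linarith
  have hθθ' : θ < θ' := by rw [hθ']; linarith
  have hθ'1 : θ' < 1 := by rw [hθ']; linarith
  obtain ⟨y₁, hy₁⟩ := t9 θ' p₀ hθ'1
  have hev : ∀ᶠ y : ℕ in atTop, (21 : ℝ) ≤ (y : ℝ) ^ (θ' - θ) := by
    have : Tendsto (fun y : ℕ => (y : ℝ) ^ (θ' - θ)) atTop atTop :=
      (tendsto_rpow_atTop (by linarith)).comp tendsto_natCast_atTop_atTop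
    exact this.eventually_ge_atTop _
  obtain ⟨y₂, hy₂⟩ := eventually_atTop.1 hev
  have hlogH : Tendsto (fun H : ℕ => Real.log (H : ℝ) ^ A) atTop atTop :=
    (tendsto_rpow_atTop hA0).comp (Real.tendsto_log_atTop.comp tendsto_natCast_atTop_atTop)
  obtain ⟨H₁, hH₁⟩ := eventually_atTop.1 (hlogH.eventually_ge_atTop (4 * ((y₁ : ℝ) + y₂ + 1)))
  refine ⟨θ, by linarith, ?_, H₁ + 2, fun H hH s hs hsH y hy => ?_⟩
  · have : A * a < A * θ := mul_lt_mul_of_pos_left haθ hA0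
    linarith
  have hbig := hH₁ H (by omega)
  have hyy : (y₁ : ℝ) + y₂ + 1 ≤ y := by linarith
  have hy1 : y₁ ≤ y := by
    have : (y₁ : ℝ) ≤ y := by
      have : (0 : ℝ) ≤ y₂ := Nat.cast_nonneg _
      linarith
    exact_mod_cast this
  have hy2 : y₂ ≤ y := by
    have : (y₂ : ℝ) ≤ y := by
      have : (0 : ℝ) ≤ y₁ := Nat.cast_nonneg _
      linarith
    exact_mod_cast this
  have hyr : (1 : ℝ) ≤ y := by
    have h1 : (0 : ℝ) ≤ y₁ := Nat.cast_nonneg _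
    have h2 : (0 : ℝ) ≤ y₂ := Nat.cast_nonneg _
    linarith
  have hy0 : (0 : ℝ) < y := by linarith
  have hH2 : 2 ≤ H := by omega
  have hHr : (2 : ℝ) ≤ H := by exact_mod_cast hH2
  have hlog0 : 0 ≤ Real.log H := Real.log_nonneg (by linarith)
  -- the primes
  have hfin1 : ({p : ℕ | (p.Prime ∧ p₀ ≤ p ∧ ¬ p ∣ s) ∧ p ≤ y}).Finite :=
    Set.Finite.subset (Set.finite_le_nat y) (fun p hp => hp.2)
  have h1 : Nat.card {p : ℕ // (p.Prime ∧ p₀ ≤ p) ∧ p ≤ y} ≤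
      Nat.card {p : ℕ // (p.Prime ∧ p₀ ≤ p ∧ ¬ p ∣ s) ∧ p ≤ y} + s.primeFactors.card := by
    have e1 : Nat.card {p : ℕ // (p.Prime ∧ p₀ ≤ p) ∧ p ≤ y} =
        Set.ncard {p : ℕ | (p.Prime ∧ p₀ ≤ p) ∧ p ≤ y} := rfl
    have e2 : Nat.card {p : ℕ // (p.Prime ∧ p₀ ≤ p ∧ ¬ p ∣ s) ∧ p ≤ y} =
        Set.ncard {p : ℕ | (p.Prime ∧ p₀ ≤ p ∧ ¬ p ∣ s) ∧ p ≤ y} := rfl
    have e3 : s.primeFactors.card = Set.ncard (s.primeFactors : Set ℕ) :=
      (Set.ncard_coe_finset _).symm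
    rw [e1, e2, e3]
    refine (Set.ncard_le_ncard ?_ (hfin1.union (Finset.finite_toSet _))).trans
      (Set.ncard_union_le _ _)
    intro p hp
    by_cases hd : p ∣ s
    · right
      exact Finset.mem_coe.2 (Nat.mem_primeFactors.2 ⟨hp.1.1, hd, hs⟩)
    · left
      exact ⟨⟨hp.1.1, hp.1.2, hd⟩, hp.2⟩
  have h2 : (y : ℝ) ^ θ' ≤ (Nat.card {p : ℕ // (p.Prime ∧ p₀ ≤ p ∧ ¬ p ∣ s) ∧ p ≤ y} : ℝ) +
      s.primeFactors.card := by
    refine (hy₁ y hy1).trans ?_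
    exact_mod_cast h1
  -- the number of prime divisors
  have h3 : (s.primeFactors.card : ℝ) ≤ 5 * Real.log H := by
    have e1 := omega_le s hs
    have e2 : Real.log s ≤ 3 * Real.log H := by
      have e3 : (s : ℝ) ≤ (H : ℝ) ^ 3 := by exact_mod_cast hsH
      have e4 := Real.log_le_log (by exact_mod_cast Nat.pos_of_ne_zero hs) e3
      rwa [Real.log_pow] at e4
    have e5 := Real.log_two_gt_d9
    have e6 : (0 : ℝ) ≤ s.primeFactors.card := Nat.cast_nonneg _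
    nlinarith
  have h4 : Real.log H ≤ 4 * (y : ℝ) ^ θ := by
    have e1 : (Real.log H ^ A) ^ a ≤ (4 * (y : ℝ)) ^ a :=
      Real.rpow_le_rpow (by positivity) hy ha0.le
    rw [← Real.rpow_mul hlog0, haA, Real.rpow_one,
      Real.mul_rpow (by norm_num) hy0.le] at e1
    have e2 : (4 : ℝ) ^ a ≤ 4 := by
      have := Real.rpow_le_rpow_of_exponent_le (show (1 : ℝ) ≤ 4 by norm_num) ha1.le
      rwa [Real.rpow_one] at this
    have e3 : (y : ℝ) ^ a ≤ (y : ℝ) ^ θ := Real.rpow_le_rpow_of_exponent_le hyr haθ.le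
    exact e1.trans (mul_le_mul e2 e3 (by positivity) (by norm_num))
  have h5 : 21 * (y : ℝ) ^ θ ≤ (y : ℝ) ^ θ' := by
    have e1 := hy₂ y hy2
    have e2 : (y : ℝ) ^ θ' = (y : ℝ) ^ (θ' - θ) * (y : ℝ) ^ θ := by
      rw [← Real.rpow_add hy0]
      congr 1
      ring
    rw [e2]
    exact mul_le_mul_of_nonneg_right e1 (by positivity)
  linarith

end Pool.Agent.Q183.SKM
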